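import Pool.Agent.H433.HG.Def
import Mathlib.RingTheory.DedekindDomain.Different
import Mathlib.RingTheory.Polynomial.Resultant.Basic

/-!
Definitions: the hyperelliptic curves `d y ^ 2 = f(x)`, `f` a monic polynomial of degree `2 g + 1`
over the integers of `K` with any Galois group.
-/

set_option autoImplicit false

open NumberField IsDedekindDomain Finset

namespace Pool.Agent.H433.HD

open Pool.Agent.H433.AC

variable {K : Type} [Field K] [NumberField K]

/-- The logarithm of the archimedean size: the sum of `log M_v` over the archimedean places of `K`,
the complex places being counted twice. -/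
noncomputable def sz (M : InfinitePlace K → ℝ) : ℝ :=
  ∑ w : InfinitePlace K, (w.mult : ℝ) * Real.log (M w)

/-- The prime `v` divides the number `D` exactly once. -/
def Once (D : 𝓞 K) (v : HeightOneSpectrum (𝓞 K)) : Prop := D ∈ v.asIdeal ∧ D ∉ v.asIdeal ^ 2

open Classical in
/-- The sum of the numbers `log N v` for the primes `v` which divide `D` exactly once. -/
noncomputable def once (D : 𝓞 K) : ℝ :=
  ∑ᶠ v : HeightOneSpectrum (𝓞 K), if Once D v then Real.log (nv v) else 0

open Classical in
/-- The logarithm of the norm of the part of the different of `L / K` which is composed of the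
primes that divide `D`. -/
noncomputable def ldd (K L : Type) [Field K] [NumberField K] [Field L] [NumberField L]
    [Algebra K L] (D : 𝓞 L) : ℝ :=
  ∑ᶠ w : HeightOneSpectrum (𝓞 L), if D ∈ w.asIdeal then
    (multiplicity w.asIdeal (differentIdeal (𝓞 K) (𝓞 L)) : ℝ) * Real.log (nv w) else 0

end Pool.Agent.H433.HD
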