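import Pool.Agent.H433.HD.Tor

/-!
The explicit lower bound for the points in the identity component at the nodes, over all finite
extensions, and the points of finite order.
-/

set_option autoImplicit false
set_option linter.unusedSectionVars false

open NumberField IsDedekindDomain Finset Polynomial Filter Topology

namespace Pool.Agent.H433.HD

open Pool.Agent.H433.AC Pool.Agent.H433.HG

/-- the lower bound over a tower -/
theorem low_id {g : ℕ} (hg : 1 ≤ g) {K L E : Type} [Field K] [NumberField K] [Field L]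
    [NumberField L] [Field E] [NumberField E] [Algebra K L] [Algebra L E] [Algebra K E]
    [IsScalarTower K L E] {b : Fin (2 * g + 1) → 𝓞 L} (h : Dif b) {D : 𝓞 K} {e : ℕ}
    (hD : algebraMap (𝓞 K) (𝓞 L) D = (-1) ^ e * Pr b ^ 2)
    {M : InfinitePlace K → ℝ} (hM : Bd b fun w => M (w.comap (algebraMap K L)))
    {T : Finset (HeightOneSpectrum (𝓞 K))} (hT : ∀ v ∈ T, Node (fun i => (b i : L)) v)
    {X : ℕ → Finset (Fin (2 * g + 1)) → E} (hX : Orbit (fun i => algebraMap L E (b i)) X)
    (hI : ∀ v ∈ T, ∀ (u : HeightOneSpectrum (𝓞 L)) (w : HeightOneSpectrum (𝓞 E)), Over v u →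
      Over u w → Sqs (X 0) ∧ Thin (fun i => algebraMap L E (b i)) w ∨
        Ident (fun i => algebraMap L E (b i)) (X 0) w)
    {l : List (Fin (2 * g + 1) × Fin (2 * g + 1))} {B : Finset (Fin (2 * g + 1))} (hl : l ≠ [])
    (hB : Apart l B) (hd : dl (X 0) l B ≠ 0)
    {S₁ : Finset (HeightOneSpectrum (𝓞 E))} (hS₁ : ∀ v ∈ S₁, Zero (X 0) v) :
    Module.finrank K E * (3 / 4 *
      (part T D - (2 * g * (2 * g + 1) - 4 / 3 * l.length) * sz M) - 4 * g * Module.finrank ℚ K) +
      ∑ v ∈ S₁, Real.log (nv v) ≤ hhat X := by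
  have hco : (fun i => algebraMap L E (b i)) = fun i => ((up E b i : 𝓞 E) : E) := by
    funext i
    exact (alg_co (b i)).symm
  rw [hco] at hX hI
  have hE := up_dif (L := E) h
  have hME := Bd_up (L := E) hM
  have hMK : (fun w : InfinitePlace E => M ((w.comap (algebraMap L E)).comap (algebraMap K L))) =
      fun w => M (w.comap (algebraMap K E)) := funext fun w => by rw [comap_comp]
  rw [hMK] at hME
  obtain ⟨P, hP⟩ : ∃ P : HeightOneSpectrum (𝓞 E) → Prop, P = fun w => ∃ v ∈ T, J E v ≤ w.asIdeal :=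
    ⟨_, rfl⟩
  have h1 := al_low' hg hE hME (P := P) (y := X 0) (hX 0).2.1 (fun w hw => by
    rw [hP] at hw
    obtain ⟨v, hv, hvw⟩ := hw
    obtain ⟨u, hu, huw⟩ := exists_between L hvw
    have hs := sng_of_over (hT v hv) hvw
    rcases hI v hv u w hu huw with ⟨h1, h2⟩ | h1
    · exact Or.inl ⟨smp_of_thin hs h2, h1⟩
    · exact Or.inr ⟨hs, h1⟩) hl hB hd hS₁
  have h2 := al_hhat (inj_of hE.inj) hX
  have h3 := hm_up' hE hME
  have h4 := part_le (E := E) h hD hT
  rw [← hP] at h4
  have e5 : hm (up E b) = ht fun S => (rs (fun i => ((up E b i : 𝓞 E) : E)) S)⁻¹ := rfl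
  rw [e5] at h3
  have e6 : (Module.finrank ℚ E : ℝ) = Module.finrank K E * Module.finrank ℚ K := by
    rw [mul_comm]
    exact_mod_cast (Module.finrank_mul_finrank ℚ K E).symm
  rw [sz_comap] at h1 h3
  rw [e6] at h1 h2
  rw [card_prs'] at h1
  have hk1 : (l.length : ℝ) ≤ g + 1 := by
    have := hB.2.2
    have h2 : l.length ≤ g + 1 := by omega
    exact_mod_cast h2
  set m : ℝ := (Module.finrank K E : ℝ) with hm
  set d : ℝ := (Module.finrank ℚ K : ℝ) with hd
  set kk : ℝ := (l.length : ℝ) with hkk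
  have hm0 : 0 ≤ m := Nat.cast_nonneg _
  have hd0 : 0 ≤ d := Nat.cast_nonneg _
  have hl4 : 0 ≤ Real.log 4 := Real.log_nonneg (by norm_num)
  have e8 : kk * (m * d * Real.log 4) ≤ (g + 1) * (m * d * Real.log 4) :=
    mul_le_mul_of_nonneg_right hk1 (by positivity)
  have e8' : (m * d) * ((g + 1) * Real.log 4 + 2 * cg g) ≤ (m * d) * (8 * g) :=
    mul_le_mul_of_nonneg_left (cst_le hg) (by positivity)
  linarith

theorem main_id (g : ℕ) (hg : 1 ≤ g) (K L : Type) [Field K] [NumberField K] [Field L]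
    [NumberField L] [Algebra K L] (f : (𝓞 K)[X]) (hf : f.Monic) (hD : f.discr ≠ 0)
    (a : Fin (2 * g + 1) → L) (ha : f.map (algebraMap (𝓞 K) L) = ∏ i, (X - C (a i)))
    (M : InfinitePlace K → ℝ)
    (hM : ∀ (w : InfinitePlace L) (i j : Fin (2 * g + 1)),
      w (a i - a j) ≤ M (w.comap (algebraMap K L)))
    (T : Finset (HeightOneSpectrum (𝓞 K))) (hT : ∀ v ∈ T, Node a v) :
    Function.Injective a ∧
    ∀ (E : Type) [Field E] [NumberField E] [Algebra L E],
      ∀ X : ℕ → Finset (Fin (2 * g + 1)) → E, Orbit (fun i => algebraMap L E (a i)) X →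
        Tendsto (fun n : ℕ => ht (X n) / 4 ^ n) atTop (𝓝 (hhat X)) ∧
        (Torsion X → hhat X = 0) ∧
        ∀ n : ℕ, (∀ v ∈ T, ∀ (u : HeightOneSpectrum (𝓞 L)) (w : HeightOneSpectrum (𝓞 E)),
          Over v u → Over u w → (1 ≤ n ∧ Thin (fun i => algebraMap L E (a i)) w) ∨
            Ident (fun i => algebraMap L E (a i)) (X n) w) →
          (Torsion X → (2 * g * (2 * g + 1) - 4 / 3) * sz M +
            16 / 3 * g * Module.finrank ℚ K < part T f.discr → Origin (X n)) ∧
          (Origin (X n) ∨ ∀ S : Finset (HeightOneSpectrum (𝓞 E)), (∀ v ∈ S, Zero (X n) v) →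
            Module.finrank L E * (Module.finrank K L * (3 / 4 *
              (part T f.discr - (2 * g * (2 * g + 1) - 4 / 3) * sz M) -
              4 * g * Module.finrank ℚ K)) + ∑ v ∈ S, Real.log (nv v) ≤ 4 ^ n * hhat X ∧
            ∀ l B, Apart l B → dl (X n) l B ≠ 0 →
              Module.finrank L E * (Module.finrank K L * (3 / 4 *
                (part T f.discr - (2 * g * (2 * g + 1) - 4 / 3 * l.length) * sz M) -
                4 * g * Module.finrank ℚ K)) + ∑ v ∈ S, Real.log (nv v) ≤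
                4 ^ n * hhat X) := by
  -- the roots are integral
  have hint (i : Fin (2 * g + 1)) : IsIntegral ℤ (a i) := by
    have h1 : IsIntegral (𝓞 K) (a i) := by
      refine ⟨f, hf, ?_⟩
      rw [← eval_map, ha, eval_prod]
      exact prod_eq_zero (mem_univ i) (by simp)
    exact isIntegral_trans (R := ℤ) (A := 𝓞 K) _ h1
  set b : Fin (2 * g + 1) → 𝓞 L := fun i => ⟨a i, hint i⟩ with hb
  have hba (i : Fin (2 * g + 1)) : ((b i : 𝓞 L) : L) = a i := rfl
  have hbf : (fun i => ((b i : 𝓞 L) : L)) = a := rfl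
  have hab : f.map (algebraMap (𝓞 K) (𝓞 L)) = ∏ i, (X - C (b i)) := by
    apply Polynomial.map_injective (algebraMap (𝓞 L) L) (RingOfIntegers.coe_injective)
    rw [Polynomial.map_map, ← IsScalarTower.algebraMap_eq (𝓞 K) (𝓞 L) L, ha, Polynomial.map_prod]
    refine prod_congr rfl fun i _ => ?_
    simp [hba]
  obtain ⟨k, hk⟩ := discr_eq hf hab
  have hPr : Pr b ≠ 0 := by
    intro h0
    rw [h0, zero_pow two_ne_zero, mul_zero] at hk
    exact hD ((map_eq_zero_iff _ alg_inj).1 hk)
  have hDif : Dif b := fun q hq => by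
    have := prod_ne_zero_iff.1 hPr q hq
    exact this
  have hinj : Function.Injective a := by
    rw [← hbf]
    exact inj_of hDif.inj
  have hBd : Bd b fun w => M (w.comap (algebraMap K L)) := fun w q _ => by
    have h3 := hM w q.1 q.2
    have e1 : ((b q.1 - b q.2 : 𝓞 L) : L) = a q.1 - a q.2 := by
      push_cast
      rfl
    rw [e1]
    exact h3
  have hn1 : (0 : ℝ) < Module.finrank K L := by
    exact_mod_cast Module.finrank_pos
  have hsz : 0 ≤ sz M := by
    have h3 := sz_nonneg hg hDif hBd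
    rw [sz_comap] at h3
    exact nonneg_of_mul_nonneg_right h3 hn1
  refine ⟨hinj, fun E _ _ _ X hX => ?_⟩
  have hEinj : Function.Injective fun i => algebraMap L E (a i) :=
    (algebraMap L E).injective.comp hinj
  refine ⟨(hhat_spec hEinj hX).1, hhat_torsion hEinj hX, fun n hI => ?_⟩
  let _ : Algebra K E := ((algebraMap L E).comp (algebraMap K L)).toAlgebra
  have : IsScalarTower K L E := IsScalarTower.of_algebraMap_eq fun _ => rfl
  have eKE : (Module.finrank K E : ℝ) = Module.finrank L E * Module.finrank K L := by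
    rw [mul_comm]
    exact_mod_cast (Module.finrank_mul_finrank K L E).symm
  have hmE : (0 : ℝ) < Module.finrank K E := by
    exact_mod_cast Module.finrank_pos
  have hI' : ∀ v ∈ T, ∀ (u : HeightOneSpectrum (𝓞 L)) (w : HeightOneSpectrum (𝓞 E)), Over v u →
      Over u w → Sqs ((fun m => X (n + m)) 0) ∧ Thin (fun i => algebraMap L E (b i)) w ∨
        Ident (fun i => algebraMap L E (b i)) ((fun m => X (n + m)) 0) w := by
    intro v hv u w hu hw
    rcases hI v hv u w hu hw with ⟨h1, h2⟩ | h1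
    · exact Or.inl ⟨sqs hX h1, h2⟩
    · exact Or.inr h1
  have key (S : Finset (HeightOneSpectrum (𝓞 E))) (hS : ∀ v ∈ S, Zero (X n) v)
      (l : List (Fin (2 * g + 1) × Fin (2 * g + 1))) (B : Finset (Fin (2 * g + 1)))
      (hl : l ≠ []) (hB : Apart l B) (hdl' : dl (X n) l B ≠ 0) :
      Module.finrank K E * (3 / 4 *
        (part T f.discr - (2 * g * (2 * g + 1) - 4 / 3 * l.length) * sz M) -
        4 * g * Module.finrank ℚ K) + ∑ v ∈ S, Real.log (nv v) ≤ 4 ^ n * hhat X := by
    rw [← hhat_shift hEinj hX n]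
    exact low_id hg hDif hk hBd (T := T) hT (orbit_shift hX n) hI' hl hB hdl' hS
  have first (hO : ¬ Origin (X n)) (S : Finset (HeightOneSpectrum (𝓞 E)))
      (hS : ∀ v ∈ S, Zero (X n) v) :
      Module.finrank K E * (3 / 4 *
        (part T f.discr - (2 * g * (2 * g + 1) - 4 / 3) * sz M) -
        4 * g * Module.finrank ℚ K) + ∑ v ∈ S, Real.log (nv v) ≤ 4 ^ n * hhat X := by
    obtain ⟨l₁, B₁, hB₁, hd₁, hl₁⟩ := exists_dl hO
    have hne₁ : l₁ ≠ [] := by
      rintro rfl
      simp at hl₁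
    have h1 := key S hS l₁ B₁ hne₁ hB₁ hd₁
    rwa [hl₁, Nat.cast_one, mul_one] at h1
  refine ⟨fun hTor hlt => ?_, ?_⟩
  · have h0 := hhat_torsion hEinj hX hTor
    by_contra hO
    have h1 := first hO ∅ (by simp)
    rw [h0, sum_empty, add_zero, mul_zero] at h1
    have h2 : 0 < 3 / 4 * (part T f.discr - (2 * g * (2 * g + 1) - 4 / 3) * sz M) -
        4 * g * Module.finrank ℚ K := by linarith
    exact absurd h1 (not_le.2 (mul_pos hmE h2))
  by_cases hO : Origin (X n)
  · exact Or.inl hO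
  refine Or.inr fun S hS => ?_
  have hfirst := first hO S hS
  have e1 (x : ℝ) : (Module.finrank L E : ℝ) * (Module.finrank K L * x) =
      Module.finrank K E * x := by
    rw [eKE]
    ring
  rw [e1]
  refine ⟨hfirst, fun l B hB hdl' => ?_⟩
  rw [e1]
  rcases eq_or_ne l [] with rfl | hl
  · refine le_trans ?_ hfirst
    rw [List.length_nil, Nat.cast_zero, mul_zero, sub_zero]
    have e1 : (part T f.discr - (2 * g * (2 * g + 1)) * sz M : ℝ) ≤
        part T f.discr - (2 * g * (2 * g + 1) - 4 / 3) * sz M := by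
      linarith
    gcongr
  · exact key S hS l B hl hB hdl'

end Pool.Agent.H433.HD
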