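import Pool.Agent.H433.HD.Def

/-!
Definitions: the nodes of the reductions, the identity component, and the points of finite order.
-/

set_option autoImplicit false

open NumberField IsDedekindDomain Finset

namespace Pool.Agent.H433.HD

open Pool.Agent.H433.AC Pool.Agent.H433.HG

variable {g : ℕ} {K L : Type} [Field K] [NumberField K] [Field L] [NumberField L] [Algebra K L]

/-- the prime `w` of `L` lies over the prime `v` of `K` -/
def Over (v : HeightOneSpectrum (𝓞 K)) (w : HeightOneSpectrum (𝓞 L)) : Prop :=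
  ∀ x ∈ v.asIdeal, algebraMap (𝓞 K) (𝓞 L) x ∈ w.asIdeal

/-- The reduction modulo `v` of the curve with the finite branch points `a_i` has one node and no
other singularity (for `v` prime to `2`): modulo every prime `u` of `L` over `v` exactly two of the
numbers `a_i` are congruent. -/
def Node (a : Fin (2 * g + 1) → L) (v : HeightOneSpectrum (𝓞 K)) : Prop :=
  ∀ u : HeightOneSpectrum (𝓞 L), Over v u → ∃! p : Fin (2 * g + 1) × Fin (2 * g + 1),
    p.1 < p.2 ∧ u.valuation L (a p.1 - a p.2) < 1

/-- The logarithm of the norm of the part of `D` which is composed of the primes in `T`. -/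
noncomputable def part (T : Finset (HeightOneSpectrum (𝓞 K))) (D : 𝓞 K) : ℝ :=
  ∑ v ∈ T, (multiplicity v.asIdeal (Ideal.span {D}) : ℝ) * Real.log (nv v)

/-- The point with the coordinates `x` lies in the identity component at `v`: if two of the numbers
`a_i` are congruent modulo `v`, then the largest of the values `|x S|_v` is taken for a set `S` which
separates them. -/
def Ident (a : Fin (2 * g + 1) → K) (x : Finset (Fin (2 * g + 1)) → K)
    (v : HeightOneSpectrum (𝓞 K)) : Prop :=
  ∀ p : Fin (2 * g + 1) × Fin (2 * g + 1), p.1 < p.2 → v.valuation K (a p.1 - a p.2) < 1 →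
    ∃ S ∈ Sp g, ¬ (p.1 ∈ S ↔ p.2 ∈ S) ∧ ∀ S' ∈ Sp g, v.valuation K (x S') ≤ v.valuation K (x S)

/-- The place is thin: the difference of two of the numbers `a_i` is a uniformiser at `v`. -/
def Thin (a : Fin (2 * g + 1) → K) (v : HeightOneSpectrum (𝓞 K)) : Prop :=
  ∃ p : Fin (2 * g + 1) × Fin (2 * g + 1), p.1 < p.2 ∧ v.valuation K (a p.1 - a p.2) < 1 ∧
    ∀ x : K, v.valuation K x < 1 → v.valuation K x ≤ v.valuation K (a p.1 - a p.2)

/-- The point has finite order: `2 ^ j P = ± 2 ^ i P` with `i < j`. -/
def Torsion (X : ℕ → Finset (Fin (2 * g + 1)) → K) : Prop :=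
  ∃ i j : ℕ, i < j ∧ ∃ c : K, c ≠ 0 ∧ ∀ S ∈ Sp g, X j S = c * X i S

end Pool.Agent.H433.HD
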