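import Pool.Agent.H433.HD.Id

/-!
The points of finite order, and the primes of an extension over the nodes.
-/

set_option autoImplicit false
set_option linter.unusedSectionVars false

open NumberField IsDedekindDomain Finset Filter Topology

namespace Pool.Agent.H433.HD

open Pool.Agent.H433.AC Pool.Agent.H433.HG
open Pool.Agent.H433.GT (mi le_mi log_absNorm mp_mul mp_prod log_Nm)

section tors

variable {g : ℕ} {K : Type} [Field K] [CharZero K]

/-- proportional coordinates -/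
def Eqv (x y : Finset (Fin (2 * g + 1)) → K) : Prop :=
  ∃ c : K, c ≠ 0 ∧ ∀ S ∈ Sp g, y S = c * x S

/-- the duplication is well defined -/
theorem det {a : Fin (2 * g + 1) → K} (ha : Function.Injective a)
    {x y x' y' : Finset (Fin (2 * g + 1)) → K} (h : Double a x y) (h' : Double a x' y')
    (hx : Eqv x x') : Eqv y y' := by
  obtain ⟨t, q, ht, hq, hy⟩ := h
  obtain ⟨t', q', ht', hq', hy'⟩ := h'
  obtain ⟨c, hc, hxx⟩ := hx
  have h1 := sg_inj (g := g) (K := K) (z := fun R => q' R / rs a R - c ^ 2 * (q R / rs a R))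
    fun S hS => by
      have e1 := hq S hS
      have e2 := hq' S hS
      rw [hxx S hS] at e2
      have e3 : ∑ R ∈ Sp g, (sg S R : K) * (q' R / rs a R - c ^ 2 * (q R / rs a R)) =
          ∑ R ∈ Sp g, (-1) ^ (S \ R).card * (q' R / rs a R) -
            c ^ 2 * ∑ R ∈ Sp g, (-1) ^ (S \ R).card * (q R / rs a R) := by
        rw [mul_sum, ← sum_sub_distrib]
        refine sum_congr rfl fun R _ => ?_
        unfold sg
        push_cast
        ring
      rw [e3, ← e1, ← e2]
      ring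
  have h2 (R : Finset (Fin (2 * g + 1))) (hR : R ∈ Sp g) : q' R = c ^ 2 * q R := by
    have h3 := h1 R hR
    have h4 := rs_ne ha R
    field_simp at h3
    linear_combination h3
  refine ⟨t' * c ^ 4 / t, by positivity, fun S hS => ?_⟩
  rw [hy S hS, hy' S hS, h2 S hS]
  field_simp

theorem eqv_shift {a : Fin (2 * g + 1) → K} (ha : Function.Injective a)
    {X : ℕ → Finset (Fin (2 * g + 1)) → K} (hX : Orbit a X) {i j : ℕ} (h : Eqv (X i) (X j))
    (n : ℕ) : Eqv (X (i + n)) (X (j + n)) := by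
  induction n with
  | zero => exact h
  | succ n ih => exact det ha (hX _).2.2 (hX _).2.2 ih

end tors

section number

variable {g : ℕ} {K : Type} [Field K] [NumberField K]

theorem ht_eqv {x y : Finset (Fin (2 * g + 1)) → K} (h : Eqv x y) : ht y = ht x := by
  obtain ⟨c, hc, hxy⟩ := h
  unfold ht
  have h1 : (fun S : Sp g => y S) = c • fun S : Sp g => x S := by
    funext S
    exact hxy S S.2
  rw [h1, Height.logHeight_smul_eq_logHeight _ hc]

/-- the canonical height of a point of finite order -/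
theorem hhat_torsion {a : Fin (2 * g + 1) → K} (ha : Function.Injective a)
    {X : ℕ → Finset (Fin (2 * g + 1)) → K} (hX : Orbit a X) (h : Torsion X) : hhat X = 0 := by
  obtain ⟨i, j, hij, c, hc, hXX⟩ := h
  obtain ⟨d, rfl⟩ := Nat.exists_eq_add_of_lt hij
  have h1 (n : ℕ) : ht (X (i + n)) = ht (X (i + d + 1 + n)) :=
    (ht_eqv (eqv_shift ha hX ⟨c, hc, hXX⟩ n)).symm
  have h2 (m : ℕ) : ht (X (i + m * (d + 1))) = ht (X i) := by
    induction m with
    | zero => rw [zero_mul, add_zero]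
    | succ m ih =>
      rw [← ih, h1 (m * (d + 1))]
      congr 2
      ring
  have h3 := (hhat_spec ha hX).1
  have h4 : Tendsto (fun m : ℕ => i + m * (d + 1)) atTop atTop := by
    refine tendsto_atTop_mono (fun m => ?_) tendsto_id
    show m ≤ _
    nlinarith [Nat.zero_le (m * d)]
  have h5 := h3.comp h4
  have h6 : Tendsto (fun m : ℕ => ht (X i) / 4 ^ (i + m * (d + 1))) atTop (𝓝 0) := by
    have h7 : Tendsto (fun n : ℕ => ht (X i) / (4 : ℝ) ^ n) atTop (𝓝 0) := by
      have := (tendsto_pow_atTop_nhds_zero_of_lt_one (r := (1 / 4 : ℝ)) (by norm_num)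
        (by norm_num)).const_mul (ht (X i))
      rw [mul_zero] at this
      refine this.congr fun n => ?_
      rw [one_div, inv_pow, div_eq_mul_inv]
    exact h7.comp h4
  refine tendsto_nhds_unique h5 (h6.congr fun m => ?_)
  show _ = ht (X (i + m * (d + 1))) / 4 ^ (i + m * (d + 1))
  rw [h2]

theorem orbit_shift {a : Fin (2 * g + 1) → K} {X : ℕ → Finset (Fin (2 * g + 1)) → K}
    (hX : Orbit a X) (n : ℕ) : Orbit a fun m => X (n + m) := fun m => hX (n + m)

/-- the canonical height of a multiple -/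
theorem hhat_shift {a : Fin (2 * g + 1) → K} (ha : Function.Injective a)
    {X : ℕ → Finset (Fin (2 * g + 1)) → K} (hX : Orbit a X) (n : ℕ) :
    hhat (fun m => X (n + m)) = 4 ^ n * hhat X := by
  have h1 := (hhat_spec ha (orbit_shift hX n)).1
  have h2 := (hhat_spec ha hX).1
  have h3 : Tendsto (fun m : ℕ => n + m) atTop atTop :=
    tendsto_atTop_mono (fun m => by show m ≤ n + m; omega) tendsto_id
  have h4 := (h2.comp h3).const_mul (4 ^ n : ℝ)
  refine tendsto_nhds_unique h1 (h4.congr fun m => ?_)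
  show 4 ^ n * (ht (X (n + m)) / 4 ^ (n + m)) = ht (X (n + m)) / 4 ^ m
  rw [pow_add]
  field_simp

/-- the coordinates of a double are in one square class -/
theorem sqs {a : Fin (2 * g + 1) → K} {X : ℕ → Finset (Fin (2 * g + 1)) → K}
    (hX : Orbit a X) {n : ℕ} (hn : 1 ≤ n) : Sqs (X n) := by
  obtain ⟨m, rfl⟩ := Nat.exists_eq_add_of_le' hn
  obtain ⟨t, q, -, -, hq⟩ := (hX m).2.2
  exact ⟨t, fun S hS => ⟨q S, hq S hS⟩⟩

end number

section tower

variable {g : ℕ} {K L E : Type} [Field K] [NumberField K] [Field L] [NumberField L]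
  [Field E] [NumberField E] [Algebra K L] [Algebra L E] [Algebra K E] [IsScalarTower K L E]

theorem over_iff {v : HeightOneSpectrum (𝓞 K)} {w : HeightOneSpectrum (𝓞 L)} :
    Over v w ↔ J L v ≤ w.asIdeal := by
  unfold J
  rw [Ideal.map_le_iff_le_comap]
  rfl

theorem alg_alg (x : 𝓞 K) : algebraMap (𝓞 L) (𝓞 E) (algebraMap (𝓞 K) (𝓞 L) x) =
    algebraMap (𝓞 K) (𝓞 E) x := by
  apply RingOfIntegers.ext
  show ((algebraMap (𝓞 L) (𝓞 E) (algebraMap (𝓞 K) (𝓞 L) x) : 𝓞 E) : E) =
    ((algebraMap (𝓞 K) (𝓞 E) x : 𝓞 E) : E)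
  rw [alg_co, alg_co, alg_co, ← IsScalarTower.algebraMap_apply]

variable (L) in
/-- a prime between two primes -/
theorem exists_between {v : HeightOneSpectrum (𝓞 K)} {w : HeightOneSpectrum (𝓞 E)}
    (h : J E v ≤ w.asIdeal) : ∃ u : HeightOneSpectrum (𝓞 L), Over v u ∧ Over u w := by
  have h1 (x : 𝓞 K) (hx : x ∈ v.asIdeal) :
      algebraMap (𝓞 K) (𝓞 L) x ∈ w.asIdeal.comap (algebraMap (𝓞 L) (𝓞 E)) := by
    rw [Ideal.mem_comap, alg_alg]
    exact h (Ideal.mem_map_of_mem _ hx)
  refine ⟨⟨w.asIdeal.comap (algebraMap (𝓞 L) (𝓞 E)), Ideal.comap_isPrime _ _, fun h0 => ?_⟩,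
    h1, fun x hx => hx⟩
  obtain ⟨x, hx, hx0⟩ := Submodule.exists_mem_ne_zero_of_ne_bot v.ne_bot
  have h2 := h1 x hx
  rw [h0, Ideal.mem_bot] at h2
  exact hx0 ((map_eq_zero_iff _ alg_inj).1 h2)

/-- a node of the curve over `L` -/
theorem sng_of_node {b : Fin (2 * g + 1) → 𝓞 L} {v : HeightOneSpectrum (𝓞 K)}
    (h : Node (fun i => (b i : L)) v) {u : HeightOneSpectrum (𝓞 L)} (hu : Over v u) :
    Sng b u := by
  have e1 (p : Fin (2 * g + 1) × Fin (2 * g + 1)) :
      u.valuation L ((b p.1 : L) - (b p.2 : L)) < 1 ↔ b p.1 - b p.2 ∈ u.asIdeal := by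
    rw [← dif_co]
    exact u.valuation_lt_one_iff_mem (K := L) _
  obtain ⟨p, ⟨hp, hpv⟩, huniq⟩ := h u hu
  refine ⟨p, mem_prs.2 hp, (e1 p).1 hpv, fun q hq hqv => ?_⟩
  exact huniq q ⟨mem_prs.1 hq, (e1 q).2 hqv⟩

theorem sng_of_over {b : Fin (2 * g + 1) → 𝓞 L} {v : HeightOneSpectrum (𝓞 K)}
    (h : Node (fun i => (b i : L)) v) {w : HeightOneSpectrum (𝓞 E)} (hw : J E v ≤ w.asIdeal) :
    Sng (up E b) w := by
  obtain ⟨u, hu, huw⟩ := exists_between L hw
  obtain ⟨p, hp, hs⟩ := sng_of_node h hu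
  exact ⟨p, hp, single_up hs (over_iff.1 huw)⟩

/-- a thin place over a node -/
theorem smp_of_thin {b : Fin (2 * g + 1) → 𝓞 L} {w : HeightOneSpectrum (𝓞 L)}
    (hs : Sng b w) (ht : Thin (fun i => (b i : L)) w) : Smp b w := by
  obtain ⟨p, hp, hs1, hs2⟩ := hs
  obtain ⟨q, hq, hqw, hq2⟩ := ht
  have e1 : w.valuation L ((b q.1 : L) - (b q.2 : L)) =
      w.valuation L ((b q.1 - b q.2 : 𝓞 L) : L) := by rw [← dif_co]
  rw [e1] at hqw hq2
  have h1 := (w.valuation_lt_one_iff_mem (K := L) _).1 hqw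
  have h2 := hs2 q (mem_prs.2 hq) h1
  rw [h2] at h1 hq2
  refine ⟨p, hp, ?_, h1, fun h3 => ?_, hs2⟩
  · rw [Nat.cast_one]
    exact fun h => w.isPrime.ne_top ((Ideal.eq_top_iff_one _).2 h)
  · obtain ⟨x, hx⟩ := w.valuation_exists_uniformizer L
    have h4 := hq2 x (by
      rw [hx, ← WithZero.exp_zero, WithZero.exp_lt_exp]
      norm_num)
    rw [Pool.Agent.H433.GT.mem_pow] at h3
    have h5 := h4.trans h3
    rw [hx, WithZero.exp_le_exp] at h5
    norm_num at h5

/-- the part of the discriminant which is composed of the primes in `T` -/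
theorem part_le {b : Fin (2 * g + 1) → 𝓞 L} (h : Dif b) {D : 𝓞 K} {k : ℕ}
    (hD : algebraMap (𝓞 K) (𝓞 L) D = (-1) ^ k * Pr b ^ 2)
    {T : Finset (HeightOneSpectrum (𝓞 K))} (hT : ∀ v ∈ T, Node (fun i => (b i : L)) v) :
    Module.finrank K E * part T D ≤ 2 * (Real.log (Nm (Pr (up E b))) -
      exs (up_dif (L := E) h) fun w => ∃ v ∈ T, J E v ≤ w.asIdeal) := by
  classical
  set hE := up_dif (L := E) h with hhE
  have hD0 : D ≠ 0 := by
    rintro rfl
    rw [map_zero] at hD
    exact mul_ne_zero (pow_ne_zero _ (by simp)) (pow_ne_zero 2 (Pr_ne h)) hD.symm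
  have hDE : algebraMap (𝓞 K) (𝓞 E) D = (-1) ^ k * Pr (up E b) ^ 2 := by
    rw [← alg_alg (L := L), hD, Pr_up]
    simp
  have hPE := Pr_ne hE
  have e0 : Real.log (Nm (Pr (up E b))) =
      ∑ w ∈ Vf hE, (mu (up E b) w : ℝ) * Real.log (nv w) := by
    rw [log_Nm hPE (Vf hE) fun w hw => ?_]
    · exact sum_congr rfl fun w _ => by rw [mp_Pr hE]
    · unfold Vf
      rw [Set.Finite.mem_toFinset]
      exact hw
  have e1 (v : HeightOneSpectrum (𝓞 K)) (hv : v ∈ T) :
      Module.finrank K E * ((mp v D : ℝ) * Real.log (nv v)) =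
        ∑ w ∈ Vf hE, ((mp v D : ℝ) * mi w (J E v)) * Real.log (nv w) := by
    have h1 : Module.finrank K E * Real.log (nv v) =
        ∑ w ∈ Vf hE, (mi w (J E v) : ℝ) * Real.log (nv w) := by
      rw [← log_absNorm (J_ne v) (Vf hE) fun w hw => ?_]
      · unfold J
        rw [Ideal.absNorm_algebraMap, ← IsFractionRing.finrank_eq (𝓞 K) K (𝓞 E) E]
        push_cast
        rw [Real.log_pow]
        rfl
      · obtain ⟨p, hp, hs⟩ := sng_of_over (E := E) (hT v hv) (Ideal.dvd_iff_le.1 hw)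
        exact mem_Vf hE hp hs.1
    rw [mul_left_comm, h1, mul_sum]
    exact sum_congr rfl fun w _ => by ring
  have e2 : Module.finrank K E * part T D =
      ∑ w ∈ Vf hE, (∑ v ∈ T, (mp v D : ℝ) * mi w (J E v)) * Real.log (nv w) := by
    have : part T D = ∑ v ∈ T, (mp v D : ℝ) * Real.log (nv v) := rfl
    rw [this, mul_sum, sum_congr rfl e1, sum_comm]
    exact sum_congr rfl fun w _ => by rw [sum_mul]
  unfold exs
  rw [e0, e2, ← sum_sub_distrib, mul_sum]
  refine sum_le_sum fun w _ => ?_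
  rw [← sub_mul, ← mul_assoc]
  refine mul_le_mul_of_nonneg_right ?_ (log_nv_pos w).le
  by_cases hex : ∃ v ∈ T, J E v ≤ w.asIdeal
  · rw [if_pos hex, sub_zero]
    obtain ⟨v, hv, hvw⟩ := hex
    rw [sum_eq_single_of_mem v hv fun v' hv' hne => ?_]
    · have h1 : algebraMap (𝓞 K) (𝓞 E) D ∈ w.asIdeal ^ (mi w (J E v) * mp v D) := by
        have h2 : D ∈ v.asIdeal ^ mp v D := (le_mp hD0 _).2 le_rfl
        have h3 : algebraMap (𝓞 K) (𝓞 E) D ∈ (J E v) ^ mp v D := by
          unfold J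
          rw [← Ideal.map_pow]
          exact Ideal.mem_map_of_mem _ h2
        rw [pow_mul]
        exact Ideal.pow_right_mono (J_le le_rfl) _ h3
      rw [hDE] at h1
      rw [le_mp (mul_ne_zero (pow_ne_zero _ (by simp)) (pow_ne_zero 2 hPE)),
        mp_mul (pow_ne_zero _ (by simp)) (pow_ne_zero 2 hPE), mp_neg_one, zero_add, pow_two,
        mp_mul hPE hPE, mp_Pr hE] at h1
      have h2 : ((mi w (J E v) * mp v D : ℕ) : ℝ) ≤ ((mu (up E b) w + mu (up E b) w : ℕ) : ℝ) := by
        exact_mod_cast h1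
      push_cast at h2
      linarith
    · have h2 : mi w (J E v') = 0 := by
        by_contra hne0
        have h2 : J E v' ≤ w.asIdeal := by
          have := J_le (v := v') (w := w) (t := 1) (by omega)
          rwa [pow_one] at this
        have h4 := comap_eq h2
        rw [comap_eq hvw] at h4
        exact hne (HeightOneSpectrum.ext h4.symm)
      rw [h2, Nat.cast_zero, mul_zero]
  · rw [if_neg hex, sub_self, mul_zero]
    refine (sum_eq_zero fun v hv => ?_).le
    have h2 : mi w (J E v) = 0 := by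
      by_contra hne0
      apply hex
      refine ⟨v, hv, ?_⟩
      have := J_le (v := v) (w := w) (t := 1) (by omega)
      rwa [pow_one] at this
    rw [h2, Nat.cast_zero, mul_zero]

end tower

end Pool.Agent.H433.HD
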