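import Pool.Agent.H433.HD.Low
import Mathlib.FieldTheory.Galois.Basic
import Mathlib.RingTheory.Polynomial.Resultant.Basic

/-!
The product of the differences of the roots lies in the different of the splitting field.
-/

set_option autoImplicit false
set_option linter.unusedSectionVars false

open NumberField IsDedekindDomain Finset Polynomial

namespace Pool.Agent.H433.HD

open Pool.Agent.H433.AC Pool.Agent.H433.HG

variable {g : ℕ} {K L : Type} [Field K] [NumberField K] [Field L] [NumberField L] [Algebra K L]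

theorem mem_different {c : 𝓞 L}
    (h : ∀ x : L, (∀ y : 𝓞 L, ∃ z : 𝓞 K, Algebra.trace K L (x * y) = z) →
      ∃ z : 𝓞 L, (c : L) * x = z) : c ∈ differentIdeal (𝓞 K) (𝓞 L) := by
  have h1 := coeSubmodule_differentIdeal (𝓞 K) K (𝓞 L) (L := L)
  have h2 : (c : L) ∈ IsLocalization.coeSubmodule L (differentIdeal (𝓞 K) (𝓞 L)) := by
    rw [h1, Submodule.mem_div_iff_forall_mul_mem]
    intro x hx
    obtain ⟨z, hz⟩ := h x fun y => by
      have h3 := (Submodule.mem_traceDual.1 hx) (y : L) (by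
        rw [Submodule.mem_one]
        exact ⟨y, rfl⟩)
      obtain ⟨z, hz⟩ := h3
      exact ⟨z, by rw [← Algebra.traceForm_apply]; exact hz.symm⟩
    rw [Submodule.mem_one]
    exact ⟨z, hz.symm⟩
  rw [IsLocalization.mem_coeSubmodule] at h2
  obtain ⟨y, hy, hyc⟩ := h2
  have h4 : y = c := by
    have : (y : L) = (c : L) := hyc
    exact_mod_cast this
  rwa [← h4]

/-- A simple proof of the classical fact that the product of the differences of the roots lies
in the different. -/
theorem Pr_mem_different [IsGalois K L] {a : Fin (2 * g + 1) → 𝓞 L}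
    (hp : ∀ σ : Gal(L/K), σ ≠ 1 → ∃ q ∈ prs (2 * g + 1), (a q.1 : L) = σ (a q.2 : L)) :
    Pr a ∈ differentIdeal (𝓞 K) (𝓞 L) := by
  classical
  refine mem_different fun x hx => ?_
  set u : Finset (Fin (2 * g + 1) × Fin (2 * g + 1)) → 𝓞 L := fun T => ∏ q ∈ T, a q.1 with hu
  set y : Finset (Fin (2 * g + 1) × Fin (2 * g + 1)) → 𝓞 L :=
    fun T => ∏ q ∈ prs (2 * g + 1) \ T, (-a q.2) with hy
  choose z hz using fun T => hx (y T)
  have h1 (σ : Gal(L/K)) : ∏ q ∈ prs (2 * g + 1), ((a q.1 : L) - σ (a q.2 : L)) =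
      ∑ T ∈ (prs (2 * g + 1)).powerset, (u T : L) * σ (y T : L) := by
    have e1 : ∏ q ∈ prs (2 * g + 1), ((a q.1 : L) - σ (a q.2 : L)) =
        ∏ q ∈ prs (2 * g + 1), ((a q.1 : L) + σ ((-a q.2 : 𝓞 L) : L)) := by
      refine prod_congr rfl fun q _ => ?_
      push_cast
      rw [map_neg]
      ring
    rw [e1, prod_add]
    refine sum_congr rfl fun T _ => ?_
    rw [hu, hy]
    push_cast
    rw [map_prod]
  have h2 (σ : Gal(L/K)) (hσ : σ ≠ 1) :
      ∏ q ∈ prs (2 * g + 1), ((a q.1 : L) - σ (a q.2 : L)) = 0 := by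
    obtain ⟨q, hq, he⟩ := hp σ hσ
    exact prod_eq_zero hq (by rw [he, sub_self])
  have h3 : (Pr a : L) = ∏ q ∈ prs (2 * g + 1), ((a q.1 : L) - (1 : Gal(L/K)) (a q.2 : L)) := by
    unfold Pr
    push_cast
    rfl
  have h4 : (Pr a : L) * x = ∑ σ : Gal(L/K),
      (∏ q ∈ prs (2 * g + 1), ((a q.1 : L) - σ (a q.2 : L))) * σ x := by
    rw [sum_eq_single_of_mem (1 : Gal(L/K)) (mem_univ _) fun σ _ hσ => by
      rw [h2 σ hσ, zero_mul], ← h3]
    rfl
  refine ⟨∑ T ∈ (prs (2 * g + 1)).powerset, u T * algebraMap (𝓞 K) (𝓞 L) (z T), ?_⟩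
  rw [h4]
  have h5 : ∑ σ : Gal(L/K), (∏ q ∈ prs (2 * g + 1), ((a q.1 : L) - σ (a q.2 : L))) * σ x =
      ∑ T ∈ (prs (2 * g + 1)).powerset, (u T : L) * ∑ σ : Gal(L/K), σ (x * (y T : L)) := by
    simp only [mul_sum]
    rw [sum_comm]
    refine sum_congr rfl fun σ _ => ?_
    rw [h1 σ, sum_mul]
    refine sum_congr rfl fun T _ => ?_
    rw [map_mul]
    ring
  rw [h5]
  push_cast
  refine sum_congr rfl fun T _ => ?_
  rw [← trace_eq_sum_automorphisms, hz T, ← alg_co]

/-- a permutation which moves no element down is trivial -/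
theorem perm_le {n : ℕ} {π : Fin n → Fin n} (hπ : Function.Injective π) (h : ∀ j, j ≤ π j)
    (j : Fin n) : π j = j := by
  have hb : Function.Bijective π := Finite.injective_iff_bijective.1 hπ
  have h1 : ∑ j, ((j : Fin n) : ℕ) = ∑ j, ((π j : Fin n) : ℕ) :=
    ((Equiv.ofBijective π hb).sum_comp fun j => ((j : Fin n) : ℕ)).symm
  have h2 := (sum_eq_sum_iff_of_le (s := univ) (f := fun j : Fin n => (j : ℕ))
    (g := fun j => ((π j : Fin n) : ℕ)) fun j _ => Fin.le_def.1 (h j)).1 h1 j (mem_univ j)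
  exact (Fin.ext h2).symm

/-- the data of a polynomial with its roots -/
theorem galois_perm {f : (𝓞 K)[X]}
    [hs : IsSplittingField K L (f.map (algebraMap (𝓞 K) K))] {a : Fin (2 * g + 1) → 𝓞 L}
    (ha : f.map (algebraMap (𝓞 K) (𝓞 L)) = ∏ i, (X - C (a i))) (hinj : Function.Injective a)
    (σ : Gal(L/K)) (hσ : σ ≠ 1) : ∃ q ∈ prs (2 * g + 1), (a q.1 : L) = σ (a q.2 : L) := by
  classical
  have hmap : (f.map (algebraMap (𝓞 K) K)).map (algebraMap K L) =
      ∏ i, (X - C (a i : L)) := by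
    have e1 : (f.map (algebraMap (𝓞 K) K)).map (algebraMap K L) =
        (f.map (algebraMap (𝓞 K) (𝓞 L))).map (algebraMap (𝓞 L) L) := by
      rw [Polynomial.map_map, Polynomial.map_map, ← IsScalarTower.algebraMap_eq (𝓞 K) K L,
        ← IsScalarTower.algebraMap_eq (𝓞 K) (𝓞 L) L]
    rw [e1, ha, Polynomial.map_prod]
    refine prod_congr rfl fun i _ => ?_
    simp
  have hroot (x : L) : aeval x (f.map (algebraMap (𝓞 K) K)) = 0 ↔ ∃ i, x = a i := by
    rw [aeval_def, ← eval_map, hmap, eval_prod, prod_eq_zero_iff]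
    simp only [mem_univ, true_and, eval_sub, eval_X, eval_C, sub_eq_zero]
  have h1 (j : Fin (2 * g + 1)) : ∃ i, σ (a j : L) = a i := by
    rw [← hroot]
    have h2 := (hroot (a j : L)).2 ⟨j, rfl⟩
    have h3 := aeval_algHom_apply (σ : L →ₐ[K] L) (a j : L) (f.map (algebraMap (𝓞 K) K))
    rw [h2, map_zero] at h3
    exact h3
  choose π hπ using h1
  have hπi : Function.Injective π := by
    intro i j hij
    have h2 : σ (a i : L) = σ (a j : L) := by rw [hπ, hπ, hij]
    have h3 := σ.injective h2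
    exact hinj (by exact_mod_cast h3)
  by_contra hcon
  push Not at hcon
  apply hσ
  have h2 (j : Fin (2 * g + 1)) : j ≤ π j := by
    by_contra hlt
    rw [not_le] at hlt
    exact hcon (π j, j) (mem_prs.2 hlt) (hπ j).symm
  have h3 (j : Fin (2 * g + 1)) : σ (a j : L) = a j := by rw [hπ, perm_le hπi h2]
  have h4 := hs.adjoin_rootSet
  have h5 : (σ : L →ₐ[K] L) = AlgHom.id K L := by
    refine AlgHom.ext_of_adjoin_eq_top h4 fun x hx => ?_
    have h6 : aeval x (f.map (algebraMap (𝓞 K) K)) = 0 := by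
      rw [mem_rootSet] at hx
      exact hx.2
    obtain ⟨j, rfl⟩ := (hroot x).1 h6
    exact h3 j
  ext x
  have h6 := DFunLike.congr_fun h5 x
  exact h6

theorem prod_prs {R : Type} [CommRing R] {n : ℕ} (F : Fin n → Fin n → R) :
    ∏ i, ∏ j ∈ univ.erase i, F i j = (∏ q ∈ prs n, F q.1 q.2) * ∏ q ∈ prs n, F q.2 q.1 := by
  classical
  have h1 : ∏ q ∈ prs n, F q.1 q.2 = ∏ i, ∏ j, if i < j then F i j else 1 := by
    unfold prs
    rw [prod_filter, ← univ_product_univ, prod_product]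
  have h2 : ∏ q ∈ prs n, F q.2 q.1 = ∏ i, ∏ j, if j < i then F i j else 1 := by
    unfold prs
    rw [prod_filter, ← univ_product_univ, prod_product, prod_comm]
  rw [h1, h2, ← prod_mul_distrib]
  refine prod_congr rfl fun i _ => ?_
  rw [← prod_mul_distrib, ← mul_prod_erase univ _ (mem_univ i)]
  simp only [lt_self_iff_false, if_false, one_mul]
  refine prod_congr rfl fun j hj => ?_
  rcases lt_or_gt_of_ne (ne_of_mem_erase hj) with h | h
  · rw [if_neg (not_lt_of_gt h), if_pos h, one_mul]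
  · rw [if_pos h, if_neg (not_lt_of_gt h), mul_one]

/-- the discriminant -/
theorem discr_eq {f : (𝓞 K)[X]} (hf : f.Monic) {a : Fin (2 * g + 1) → 𝓞 L}
    (ha : f.map (algebraMap (𝓞 K) (𝓞 L)) = ∏ i, (X - C (a i))) :
    ∃ k : ℕ, algebraMap (𝓞 K) (𝓞 L) f.discr = (-1) ^ k * Pr a ^ 2 := by
  have hlc : ∏ i, (X - C (a i)).leadingCoeff ≠ 0 := by
    simp
  have hdeg : f.natDegree = 2 * g + 1 := by
    have h1 := hf.natDegree_map (algebraMap (𝓞 K) (𝓞 L))
    rw [← h1, ha, natDegree_prod_of_monic _ _ fun i _ => monic_X_sub_C _]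
    simp
  have hpos : 0 < f.degree := by
    rw [← natDegree_pos_iff_degree_pos, hdeg]
    omega
  have h1 := congrArg (algebraMap (𝓞 K) (𝓞 L)) (resultant_deriv hpos)
  rw [← resultant_map_map, ← derivative_map, ha, hf.leadingCoeff, mul_one, map_mul, map_pow,
    map_neg, map_one] at h1
  have hFd : (∏ i, (X - C (a i))).natDegree = f.natDegree := by
    rw [← ha, hf.natDegree_map]
  have hn : (derivative (∏ i, (X - C (a i)))).natDegree ≤ f.natDegree - 1 := by
    rw [← hFd]
    exact natDegree_derivative_le _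
  have h2 := resultant_prod_left univ (fun i => X - C (a i)) (derivative (∏ i, (X - C (a i))))
    (f.natDegree - 1) hlc hn
  rw [hFd] at h2
  rw [h2] at h1
  have h3 (i : Fin (2 * g + 1)) : (X - C (a i)).resultant (derivative (∏ i, (X - C (a i))))
      (X - C (a i)).natDegree (f.natDegree - 1) = ∏ j ∈ univ.erase i, (a i - a j) := by
    rw [natDegree_X_sub_C, resultant_X_sub_C_left _ _ _ hn]
    have h4 := Lagrange.eval_nodal_derivative_eval_node_eq (s := univ) (v := a) (mem_univ i)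
    unfold Lagrange.nodal at h4
    rw [h4, eval_prod]
    refine prod_congr rfl fun j _ => ?_
    simp
  rw [prod_congr rfl fun i _ => h3 i, prod_prs fun i j => a i - a j] at h1
  have h5 : ∏ q ∈ prs (2 * g + 1), (a q.2 - a q.1) =
      (-1) ^ (prs (2 * g + 1)).card * Pr a := by
    unfold Pr
    rw [← prod_const, ← prod_mul_distrib]
    exact prod_congr rfl fun q _ => by ring
  rw [h5] at h1
  refine ⟨f.natDegree * (f.natDegree - 1) / 2 + (prs (2 * g + 1)).card, ?_⟩
  have h6 : ((-1 : 𝓞 L) ^ (f.natDegree * (f.natDegree - 1) / 2)) *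
      (-1) ^ (f.natDegree * (f.natDegree - 1) / 2) = 1 := by
    rw [← mul_pow]
    simp
  calc algebraMap (𝓞 K) (𝓞 L) f.discr =
      ((-1 : 𝓞 L) ^ (f.natDegree * (f.natDegree - 1) / 2)) *
      ((-1) ^ (f.natDegree * (f.natDegree - 1) / 2) * algebraMap (𝓞 K) (𝓞 L) f.discr) := by
        rw [← mul_assoc, h6, one_mul]
    _ = _ := by
        rw [← h1, pow_add]
        have : ∏ q ∈ prs (2 * g + 1), (a q.1 - a q.2) = Pr a := rfl
        rw [this]
        ring

end Pool.Agent.H433.HD
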