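import Pool.Agent.H433.HD.Diff

/-!
The primes which divide the discriminant exactly once.
-/

set_option autoImplicit false
set_option linter.unusedSectionVars false

open NumberField IsDedekindDomain Finset Polynomial

namespace Pool.Agent.H433.HD

open Pool.Agent.H433.AC Pool.Agent.H433.HG
open Pool.Agent.H433.GT (mi le_mi log_absNorm mp_mul mp_prod log_Nm)

variable {g : ℕ} {K L : Type} [Field K] [NumberField K] [Field L] [NumberField L] [Algebra K L]

theorem mp_Pr {a : Fin (2 * g + 1) → 𝓞 K} (h : Dif a) (v : HeightOneSpectrum (𝓞 K)) :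
    mp v (Pr a) = mu a v := mp_prod _ _ fun q hq => h q hq

theorem mp_neg_one (v : HeightOneSpectrum (𝓞 K)) (k : ℕ) : mp v ((-1 : 𝓞 K) ^ k) = 0 := by
  by_contra hne
  have h1 : (-1 : 𝓞 K) ^ k ∈ v.asIdeal := (mem_iff_mp (pow_ne_zero _ (by simp))).2 (by omega)
  exact v.isPrime.ne_top (Ideal.eq_top_of_isUnit_mem _ h1 ((isUnit_one.neg).pow k))

/-- At a place over a prime which divides the discriminant exactly once, two points collide. -/
theorem smp_of_once [IsGalois K L] {a : Fin (2 * g + 1) → 𝓞 L} (h : Dif a)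
    (hp : ∀ σ : Gal(L/K), σ ≠ 1 → ∃ q ∈ prs (2 * g + 1), (a q.1 : L) = σ (a q.2 : L))
    {D : 𝓞 K} {k : ℕ} (hD : algebraMap (𝓞 K) (𝓞 L) D = (-1) ^ k * Pr a ^ 2)
    {v : HeightOneSpectrum (𝓞 K)} (hv : Once D v) {w : HeightOneSpectrum (𝓞 L)}
    (hw : 1 ≤ mi w (J L v)) : mi w (J L v) = 2 ∧ Smp a w := by
  have h1 := mp_up hv.1 hv.2 hw
  have hP := Pr_ne h
  rw [hD, mp_mul (pow_ne_zero _ (by simp)) (pow_ne_zero 2 hP), mp_neg_one, zero_add, pow_two,
    mp_mul hP hP, mp_Pr h] at h1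
  have h2 := mi_different (L := L) v w
  have h3 : mi w (differentIdeal (𝓞 K) (𝓞 L)) ≤ mu a w := by
    rw [← mp_Pr h, ← le_mp hP]
    have h4 := (le_mi (v := w) (differentIdeal_ne_bot (A := 𝓞 K) (B := 𝓞 L)) _).2 le_rfl
    exact Ideal.dvd_iff_le.1 h4 (Pr_mem_different hp)
  have h4 : mu a w = 1 := by omega
  refine ⟨by omega, ?_⟩
  obtain ⟨F, hF⟩ : ∃ F : Fin (2 * g + 1) × Fin (2 * g + 1) → ℕ,
      ∀ q, F q = mp w (a q.1 - a q.2) := ⟨_, fun _ => rfl⟩
  have h4' : ∑ q ∈ prs (2 * g + 1), F q = 1 := by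
    refine Eq.trans ?_ h4
    unfold mu
    exact sum_congr rfl fun q _ => hF q
  obtain ⟨q, hq, hq1⟩ : ∃ q ∈ prs (2 * g + 1), F q ≠ 0 := by
    by_contra hcon
    push Not at hcon
    rw [sum_eq_zero hcon] at h4'
    omega
  have h8 := add_sum_erase (prs (2 * g + 1)) F hq
  rw [h4'] at h8
  have h6 : mp w (a q.1 - a q.2) = 1 := by
    rw [← hF]
    omega
  have h9 : ∑ x ∈ (prs (2 * g + 1)).erase q, F x = 0 := by omega
  have h5 (q' : Fin (2 * g + 1) × Fin (2 * g + 1)) (hq' : q' ∈ prs (2 * g + 1)) (hne : q' ≠ q) :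
      mp w (a q'.1 - a q'.2) = 0 := by
    rw [← hF]
    exact sum_eq_zero_iff.1 h9 q' (mem_erase.2 ⟨hne, hq'⟩)
  refine ⟨q, hq, ?_, ?_, ?_, fun q' hq' hm => ?_⟩
  · rw [Nat.cast_one]
    exact fun h => w.isPrime.ne_top ((Ideal.eq_top_iff_one _).2 h)
  · rw [mem_iff_mp (h q hq), h6]
  · rw [le_mp (h q hq), h6]
    norm_num
  · by_contra hne
    have h7 := h5 q' hq' hne
    rw [mem_iff_mp (h q' hq'), h7] at hm
    omega

theorem log_Nm_Pr {a : Fin (2 * g + 1) → 𝓞 K} (h : Dif a) :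
    Real.log (Nm (Pr a)) - ex h = ∑ v ∈ Vs h, Real.log (nv v) := by
  classical
  have e5 : ∑ p ∈ prs (2 * g + 1), Lp 1 h p = ∑ v ∈ Vs h, Real.log (nv v) := by
    unfold Lp
    rw [sum_comm]
    unfold Vs
    rw [sum_filter]
    refine sum_congr rfl fun v _ => ?_
    split_ifs with hv
    · obtain ⟨p, hp, hs⟩ := hv
      rw [sum_eq_single_of_mem p hp fun q hq hne => ?_, if_pos hs]
      rw [if_neg]
      intro hs'
      exact hne (hs.2.2.2 q hq hs'.2.1)
    · refine sum_eq_zero fun p hp => ?_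
      rw [if_neg]
      intro hs
      exact hv ⟨p, hp, hs⟩
  have e6 : Real.log (Nm (Pr a)) = ∑ p ∈ prs (2 * g + 1), Real.log (Nm (a p.1 - a p.2)) := by
    rw [log_Nm_inf (Pr_ne h), sum_congr rfl fun p hp => log_Nm_inf (h p hp), sum_comm]
    refine sum_congr rfl fun w _ => ?_
    rw [← mul_sum, ← Real.log_prod fun q hq => (w_pos (h q hq)).ne']
    unfold Pr
    push_cast
    rw [map_prod]
  unfold ex
  rw [sum_sub_distrib, e5, e6]
  ring

/-- the primes which divide the discriminant exactly once give simple places -/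
theorem once_le [IsGalois K L] {a : Fin (2 * g + 1) → 𝓞 L} (h : Dif a)
    (hp : ∀ σ : Gal(L/K), σ ≠ 1 → ∃ q ∈ prs (2 * g + 1), (a q.1 : L) = σ (a q.2 : L))
    {D : 𝓞 K} {k : ℕ} (hD : algebraMap (𝓞 K) (𝓞 L) D = (-1) ^ k * Pr a ^ 2) :
    Module.finrank K L * once D ≤ 2 * (Real.log (Nm (Pr a)) - ex h) := by
  classical
  have hD0 : D ≠ 0 := by
    rintro rfl
    rw [map_zero] at hD
    exact mul_ne_zero (pow_ne_zero _ (by simp)) (pow_ne_zero 2 (Pr_ne h)) hD.symm
  set V₁ : Finset (HeightOneSpectrum (𝓞 K)) := (finite_mem hD0).toFinset.filter (Once D) with hV₁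
  have hmV (v : HeightOneSpectrum (𝓞 K)) : v ∈ V₁ ↔ Once D v := by
    rw [hV₁, mem_filter, Set.Finite.mem_toFinset]
    exact ⟨fun h => h.2, fun h => ⟨h.1, h⟩⟩
  have e0 : once D = ∑ v ∈ V₁, Real.log (nv v) := by
    unfold once
    rw [finsum_eq_sum_of_support_subset (s := V₁) _ fun v hv => ?_]
    · exact sum_congr rfl fun v hv => if_pos ((hmV v).1 hv)
    · rw [Function.mem_support] at hv
      rw [mem_coe, hmV]
      by_contra hcon
      rw [if_neg hcon] at hv
      exact hv rfl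
  have e1 (v : HeightOneSpectrum (𝓞 K)) (hv : v ∈ V₁) :
      Module.finrank K L * Real.log (nv v) =
        ∑ w ∈ Vf h, (mi w (J L v) : ℝ) * Real.log (nv w) := by
    rw [← log_absNorm (J_ne v) (Vf h) fun w hw => ?_]
    · unfold J
      rw [Ideal.absNorm_algebraMap, ← IsFractionRing.finrank_eq (𝓞 K) K (𝓞 L) L]
      push_cast
      rw [Real.log_pow]
      rfl
    · have h1 : 1 ≤ mi w (J L v) := (le_mi (J_ne v) 1).1 (by rwa [pow_one])
      obtain ⟨-, p, hp', hs⟩ := smp_of_once h hp hD ((hmV v).1 hv) h1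
      exact mem_Vf h hp' hs.2.1
  rw [log_Nm_Pr, e0, mul_sum, sum_congr rfl e1, sum_comm, mul_sum]
  have e2 : ∑ v ∈ Vs h, 2 * Real.log (nv v) =
      ∑ v ∈ Vf h, if Smp a v then 2 * Real.log (nv v) else 0 := by
    unfold Vs
    rw [sum_filter]
  rw [e2]
  refine sum_le_sum fun w _ => ?_
  rw [← sum_mul]
  have hlw := log_nv_pos w
  by_cases hex : ∃ v ∈ V₁, mi w (J L v) ≠ 0
  · obtain ⟨v, hv, hm⟩ := hex
    obtain ⟨h2, hs⟩ := smp_of_once h hp hD ((hmV v).1 hv) (w := w) (by omega)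
    rw [if_pos hs, sum_eq_single_of_mem v hv fun v' hv' hne => ?_, h2]
    · norm_num
    · rw [Nat.cast_eq_zero]
      by_contra hne0
      have h1 : J L v ≤ w.asIdeal := by
        have := J_le (v := v) (w := w) (t := 1) (by omega)
        rwa [pow_one] at this
      have h2 : J L v' ≤ w.asIdeal := by
        have := J_le (v := v') (w := w) (t := 1) (by omega)
        rwa [pow_one] at this
      have h4 := comap_eq h2
      rw [comap_eq h1] at h4
      exact hne (HeightOneSpectrum.ext h4.symm)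
  · push Not at hex
    rw [sum_eq_zero fun v hv => by rw [hex v hv, Nat.cast_zero], zero_mul]
    split_ifs
    · positivity
    · exact le_rfl

end Pool.Agent.H433.HD
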