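import Pool.Agent.H433.HG.Ext
import Pool.Agent.H433.HD.Def

/-!
Lower bounds with an upper bound of the differences at every archimedean place.
-/

set_option autoImplicit false
set_option linter.unusedSectionVars false

open NumberField IsDedekindDomain Finset

namespace Pool.Agent.H433.HD

open Pool.Agent.H433.AC Pool.Agent.H433.HG
open Pool.Agent.H433.GT (mi le_mi span_ne le_mi_span log_absNorm mp_mul mp_prod mem_of_mul
  lt_pow le_of_simple log_Nm Nm_inf ht_int)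

variable {g : ℕ} {K : Type} [Field K] [NumberField K]

/-- the product of the differences -/
def Pr (a : Fin (2 * g + 1) → 𝓞 K) : 𝓞 K := ∏ q ∈ prs (2 * g + 1), (a q.1 - a q.2)

theorem Pr_ne {a : Fin (2 * g + 1) → 𝓞 K} (h : Dif a) : Pr a ≠ 0 :=
  prod_ne_zero_iff.2 fun q hq => h q hq

/-- the bound for the differences -/
def Bd (a : Fin (2 * g + 1) → 𝓞 K) (M : InfinitePlace K → ℝ) : Prop :=
  ∀ w : InfinitePlace K, ∀ q ∈ prs (2 * g + 1), w ((a q.1 - a q.2 : 𝓞 K) : K) ≤ M w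

theorem w_pos {w : InfinitePlace K} {x : 𝓞 K} (hx : x ≠ 0) : 0 < w (x : K) :=
  InfinitePlace.pos_iff.2 (by exact_mod_cast hx)

theorem log_Nm_inf {x : 𝓞 K} (hx : x ≠ 0) :
    Real.log (Nm x) = ∑ w : InfinitePlace K, (w.mult : ℝ) * Real.log (w (x : K)) := by
  rw [Nm_inf, Real.log_prod fun w _ => pow_ne_zero _ (w_pos hx).ne']
  exact sum_congr rfl fun w _ => Real.log_pow _ _

theorem arch_low {ι : Type} [Finite ι] {Z : ι → 𝓞 K} {x : 𝓞 K} (hx : x ≠ 0)
    {c : InfinitePlace K → ℝ} (hc : ∀ w, 0 < c w)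
    (h : ∀ w : InfinitePlace K, ∃ j, c w * w (x : K) ≤ w (Z j : K)) :
    sz c + Real.log (Nm x) ≤
      Real.log (∏ w : InfinitePlace K, (⨆ i, w (Z i : K)) ^ w.mult) := by
  have h0 (w : InfinitePlace K) : c w * w (x : K) ≤ ⨆ i, w (Z i : K) := by
    obtain ⟨j, hj⟩ := h w
    exact hj.trans (le_ciSup (f := fun i => w (Z i : K)) (Set.finite_range _).bddAbove j)
  have h1 (w : InfinitePlace K) : 0 < ⨆ i, w (Z i : K) :=
    lt_of_lt_of_le (mul_pos (hc w) (w_pos hx)) (h0 w)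
  rw [Real.log_prod fun w _ => pow_ne_zero _ (h1 w).ne', log_Nm_inf hx]
  unfold sz
  rw [← sum_add_distrib]
  refine sum_le_sum fun w _ => ?_
  rw [Real.log_pow, ← mul_add, ← Real.log_mul (hc w).ne' (w_pos hx).ne']
  exact mul_le_mul_of_nonneg_left (Real.log_le_log (mul_pos (hc w) (w_pos hx)) (h0 w))
    (Nat.cast_nonneg _)

theorem M_pos {a : Fin (2 * g + 1) → 𝓞 K} (hg : 1 ≤ g) (h : Dif a) {M : InfinitePlace K → ℝ}
    (hM : Bd a M) (w : InfinitePlace K) : 0 < M w := by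
  have hq : ((⟨0, by omega⟩, ⟨1, by omega⟩) : Fin (2 * g + 1) × Fin (2 * g + 1)) ∈
      prs (2 * g + 1) := mem_prs.2 (by simp [Fin.lt_def])
  exact lt_of_lt_of_le (w_pos (h _ hq)) (hM w _ hq)

theorem prod_up' {a : Fin (2 * g + 1) → 𝓞 K} {M : InfinitePlace K → ℝ} (hM : Bd a M)
    (w : InfinitePlace K) {s : Finset (Fin (2 * g + 1) × Fin (2 * g + 1))}
    (hs : s ⊆ prs (2 * g + 1)) :
    w ((∏ q ∈ s, (a q.1 - a q.2) : 𝓞 K) : K) ≤ M w ^ s.card := prod_up (hM w) hs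

theorem prod_low' {a : Fin (2 * g + 1) → 𝓞 K} {M : InfinitePlace K → ℝ} (hM : Bd a M)
    (w : InfinitePlace K) {s : Finset (Fin (2 * g + 1) × Fin (2 * g + 1))}
    (hs : s ⊆ prs (2 * g + 1)) :
    w (Pr a : K) ≤
      M w ^ ((prs (2 * g + 1)).card - s.card) * w ((∏ q ∈ s, (a q.1 - a q.2) : 𝓞 K) : K) := by
  have h1 : Pr a = (∏ q ∈ prs (2 * g + 1) \ s, (a q.1 - a q.2)) * ∏ q ∈ s, (a q.1 - a q.2) := by
    unfold Pr
    rw [prod_sdiff hs]
  rw [h1]
  push_cast
  rw [map_mul]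
  refine mul_le_mul_of_nonneg_right ?_ (apply_nonneg _ _)
  have h2 := prod_up' hM w (s := prs (2 * g + 1) \ s) sdiff_subset
  rw [card_sdiff_of_subset hs] at h2
  push_cast at h2
  exact h2

/-- the norm of a product of differences -/
theorem norm_sub {a : Fin (2 * g + 1) → 𝓞 K} (hg : 1 ≤ g) (h : Dif a) {M : InfinitePlace K → ℝ}
    (hM : Bd a M) {s : Finset (Fin (2 * g + 1) × Fin (2 * g + 1))}
    (hs : s ⊆ prs (2 * g + 1)) :
    Real.log (Nm (Pr a)) - ((prs (2 * g + 1)).card - s.card) * sz M ≤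
      Real.log (Nm (∏ q ∈ s, (a q.1 - a q.2))) := by
  have h0 : (∏ q ∈ s, (a q.1 - a q.2) : 𝓞 K) ≠ 0 := prod_ne_zero_iff.2 fun q hq => h q (hs hq)
  rw [log_Nm_inf (Pr_ne h), log_Nm_inf h0]
  unfold sz
  rw [mul_sum, ← sum_sub_distrib]
  refine sum_le_sum fun w _ => ?_
  have h1 := prod_low' hM w hs
  have h2 := Real.log_le_log (w_pos (Pr_ne h)) h1
  have hMp := M_pos hg h hM w
  rw [Real.log_mul (pow_ne_zero _ hMp.ne') (w_pos h0).ne', Real.log_pow,
    Nat.cast_sub (card_le_card hs)] at h2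
  have h3 : (0 : ℝ) ≤ w.mult := Nat.cast_nonneg _
  nlinarith [mul_le_mul_of_nonneg_left h2 h3]

/-- the height of the point of the moduli space, upper bound -/
theorem hm_up' {a : Fin (2 * g + 1) → 𝓞 K} (h : Dif a) {M : InfinitePlace K → ℝ}
    (hM : Bd a M) : hm a ≤ g ^ 2 * sz M := by
  obtain ⟨S₀, hS₀⟩ := Sp_nonempty g
  obtain ⟨ww, hww⟩ : ∃ ww : Sp g → 𝓞 K, ww = fun S : Sp g => W a S := ⟨_, rfl⟩
  have ew (S : Sp g) : ww S = W a S := by rw [hww]
  have hW0 : ww ⟨S₀, hS₀⟩ ≠ 0 := by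
    rw [ew]
    exact Wne h _
  have e0 : (fun S : Sp g => ((W a S : 𝓞 K) : K)) = fun S => ((ww S : 𝓞 K) : K) := by rw [hww]
  rw [hm_eq h, e0, ht_int hW0]
  have h1 : (0 : ℝ) ≤ Real.log (Ideal.absNorm (Ideal.span (Set.range ww))) :=
    Real.log_natCast_nonneg _
  have h3 (w : InfinitePlace K) : 0 < ⨆ i, w ((ww i : 𝓞 K) : K) :=
    lt_of_lt_of_le (w_pos hW0) (le_ciSup (f := fun i => w ((ww i : 𝓞 K) : K))
      (Set.finite_range _).bddAbove ⟨S₀, hS₀⟩)
  have h4 : Real.log (∏ w : InfinitePlace K, (⨆ i, w ((ww i : 𝓞 K) : K)) ^ w.mult) ≤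
      g ^ 2 * sz M := by
    rw [Real.log_prod fun w _ => pow_ne_zero _ (h3 w).ne']
    unfold sz
    rw [mul_sum]
    refine sum_le_sum fun w _ => ?_
    have : Nonempty (Sp g) := ⟨⟨S₀, hS₀⟩⟩
    have h5 : (⨆ i, w ((ww i : 𝓞 K) : K)) ≤ M w ^ (g ^ 2) := by
      refine ciSup_le fun s => ?_
      rw [ew, ← card_Gs s.2]
      exact prod_up' hM w (Gs_sub _)
    have h6 := Real.log_le_log (h3 w) h5
    rw [Real.log_pow] at h6
    rw [Real.log_pow]
    push_cast at h6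
    have h7 : (0 : ℝ) ≤ w.mult := Nat.cast_nonneg _
    nlinarith [mul_le_mul_of_nonneg_left h6 h7]
  linarith

theorem sz_const {c : ℝ} : sz (fun _ : InfinitePlace K => c) =
    Module.finrank ℚ K * Real.log c := by
  unfold sz
  rw [← sum_mul, ← Nat.cast_sum, ← NumberField.totalWeight_eq_sum_mult,
    NumberField.totalWeight_eq_finrank]

/-- the height of the double of a point -/
theorem al_low {a : Fin (2 * g + 1) → 𝓞 K} (hg : 1 ≤ g) (h : Dif a) {M : InfinitePlace K → ℝ}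
    (hM : Bd a M)
    {y : Finset (Fin (2 * g + 1)) → K} {t : K} (hy : ∀ S ∈ Sp g, ∃ q, y S = t * q ^ 2)
    (hL : Linear (fun i => (a i : K)) y)
    {l : List (Fin (2 * g + 1) × Fin (2 * g + 1))} {B : Finset (Fin (2 * g + 1))} (hl : l ≠ [])
    (hB : Apart l B) (hd : dl y l B ≠ 0)
    {S₁ : Finset (HeightOneSpectrum (𝓞 K))} (hS₁ : ∀ v ∈ S₁, Zero y v) :
    3 * Real.log (Nm (Pr a)) - (3 * (prs (2 * g + 1)).card - g ^ 2 - 2 * l.length) * sz M -
      l.length * (Module.finrank ℚ K * Real.log 4) + 2 * ∑ v ∈ S₁, Real.log (nv v) -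
      exs h (Smp a) - 2 * exs h (Sng a) ≤
      ht (al (fun i => (a i : K)) y) := by
  obtain ⟨γ, z, hγ, hz⟩ := exists_int y
  have hzf : (fun S => (z S : K)) = fun S => γ * y S := funext hz
  obtain ⟨δ, hδ⟩ := dl_int z l B
  have hδ0 : δ ≠ 0 := by
    intro h0
    rw [h0, hzf, dl_smul] at hδ
    simp only [map_zero] at hδ
    exact mul_ne_zero hγ hd hδ.symm
  have hLz : Linear (fun i => (a i : K)) fun S => (z S : K) := by
    intro U hU
    show (z U : K) = ∑ i ∈ U, _ * (z _ : K)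
    rw [hz, hL U hU, mul_sum]
    refine sum_congr rfl fun i _ => ?_
    rw [hz]
    ring
  have hyz (S : Finset (Fin (2 * g + 1))) (hS : S ∈ Sp g) : ∃ q, (z S : K) = (γ * t) * q ^ 2 := by
    obtain ⟨q, hq⟩ := hy S hS
    exact ⟨q, by rw [hz, hq]; ring⟩
  -- a coordinate which is not zero
  obtain ⟨S₀, hS₀⟩ : ∃ S₀ : Sp g, z S₀ ≠ 0 := by
    by_contra hcon
    push Not at hcon
    apply hδ0
    have h1 := dl_zero (x := fun S => (z S : K)) (fun S hS => by
      have := hcon ⟨S, hS⟩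
      simp only at this
      show (z S : K) = 0
      rw [this]
      simp) l B hB
    rw [← hδ] at h1
    exact_mod_cast h1
  obtain ⟨ww, hww⟩ : ∃ ww : Sp g → 𝓞 K, ww = fun S : Sp g => W a S * z S ^ 2 := ⟨_, rfl⟩
  have ew (S : Sp g) : ww S = W a S * z S ^ 2 := by rw [hww]
  have hw0 : ww S₀ ≠ 0 := by
    rw [ew]
    exact mul_ne_zero (Wne h _) (pow_ne_zero 2 hS₀)
  have e0 : (fun S : Sp g => ((W a S * z S ^ 2 : 𝓞 K) : K)) = fun S => ((ww S : 𝓞 K) : K) := by
    rw [hww]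
  have h1 := norm_al h hS₀ hLz hyz
  rw [← hww] at h1
  have h2 := norm_dl h hγ hz hS₀ hLz hl hB hδ hδ0 hS₁
  have h3 := norm_sub hg h hM (apart_sub hB)
  rw [List.toFinset_card_of_nodup (apart_nodup hB)] at h3
  have hNg : g ^ 2 ≤ (prs (2 * g + 1)).card := by
    obtain ⟨S, hS⟩ := Sp_nonempty g
    rw [← card_Gs hS]
    exact card_le_card (Gs_sub S)
  set N := (prs (2 * g + 1)).card with hN
  have hMp := M_pos hg h hM
  have hPd : Pr a * δ ^ 2 ≠ 0 := mul_ne_zero (Pr_ne h) (pow_ne_zero 2 hδ0)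
  have h4 := arch_low (Z := ww) hPd (c := fun w => (M w ^ (N - g ^ 2) * 4 ^ l.length)⁻¹)
    (fun w => by have := hMp w; positivity)
    fun w => by
      have : Nonempty (Sp g) := ⟨S₀⟩
      obtain ⟨S, -, hS⟩ := exists_max_image (univ : Finset (Sp g)) (fun S => w (z S : K))
        univ_nonempty
      refine ⟨S, ?_⟩
      have h5 : w (δ : K) ≤ 2 ^ l.length * w (z S : K) := by
        rw [hδ]
        refine dl_abs (w := w) (fun y z => ?_) (fun T hT => hS ⟨T, hT⟩ (mem_univ _)) l B hB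
        rw [← InfinitePlace.norm_embedding_eq, ← InfinitePlace.norm_embedding_eq w y,
          ← InfinitePlace.norm_embedding_eq w z, map_sub]
        exact norm_sub_le _ _
      have h6 : w (δ : K) ^ 2 ≤ (2 ^ l.length * w (z S : K)) ^ 2 :=
        pow_le_pow_left₀ (apply_nonneg _ _) h5 2
      have h7 := prod_low' hM w (Gs_sub (S : Finset (Fin (2 * g + 1))))
      rw [card_Gs S.2, ← hN] at h7
      rw [ew]
      push_cast
      rw [map_mul, map_mul, map_pow, map_pow]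
      have h8 : (4 : ℝ) ^ l.length = (2 ^ l.length) ^ 2 := by
        rw [← pow_mul, Nat.mul_comm l.length 2, pow_mul]
        norm_num
      have hMw := hMp w
      rw [h8, inv_mul_le_iff₀ (by positivity)]
      calc w (Pr a : K) * w (δ : K) ^ 2
          ≤ (M w ^ (N - g ^ 2) * w ((∏ q ∈ Gs (S : Finset (Fin (2 * g + 1))),
              (a q.1 - a q.2) : 𝓞 K) : K)) * (2 ^ l.length * w (z S : K)) ^ 2 := by
            gcongr
        _ = M w ^ (N - g ^ 2) * (2 ^ l.length) ^ 2 *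
              (w ((W a S : 𝓞 K) : K) * w (z S : K) ^ 2) := by
            have : W a (S : Finset (Fin (2 * g + 1))) =
              ∏ q ∈ Gs (S : Finset (Fin (2 * g + 1))), (a q.1 - a q.2) := rfl
            rw [this]
            ring
  have h9 : sz (fun w => (M w ^ (N - g ^ 2) * 4 ^ l.length)⁻¹) =
      -((N - g ^ 2) * sz M) - l.length * (Module.finrank ℚ K * Real.log 4) := by
    rw [← sz_const]
    unfold sz
    rw [mul_sum, mul_sum, ← sum_neg_distrib, ← sum_sub_distrib]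
    refine sum_congr rfl fun w _ => ?_
    rw [Real.log_inv, Real.log_mul (pow_ne_zero _ (hMp w).ne') (by positivity), Real.log_pow,
      Real.log_pow, Nat.cast_sub hNg]
    push_cast
    ring
  have h10 : Real.log (Nm (Pr a * δ ^ 2)) = Real.log (Nm (Pr a)) + 2 * Real.log (Nm δ) := by
    rw [log_Nm_inf hPd, log_Nm_inf (Pr_ne h), log_Nm_inf hδ0, mul_sum, ← sum_add_distrib]
    refine sum_congr rfl fun w _ => ?_
    push_cast
    rw [map_mul, map_pow, Real.log_mul (w_pos (Pr_ne h)).ne' (pow_ne_zero 2 (w_pos hδ0).ne'),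
      Real.log_pow]
    push_cast
    ring
  rw [al_ht h hγ hz, e0, ht_int hw0]
  rw [h9, h10] at h4
  have h11 : pl a l = ∏ q ∈ l.toFinset, (a q.1 - a q.2) := rfl
  rw [h11] at h2
  linarith

end Pool.Agent.H433.HD
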