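import Pool.Agent.H433.HD.Main
import Pool.Agent.H433.HD.Def2

/-!
Points in the identity component.
-/

set_option autoImplicit false
set_option linter.unusedSectionVars false

open NumberField IsDedekindDomain Finset Filter Topology

namespace Pool.Agent.H433.HD

open Pool.Agent.H433.AC Pool.Agent.H433.HG
open Pool.Agent.H433.GT (mi le_mi span_ne le_mi_span log_absNorm mp_mul mp_prod mem_of_mul
  lt_pow le_of_simple log_Nm Nm_inf ht_int seq_lim)

variable {g : ℕ} {K : Type} [Field K] [NumberField K]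

theorem exs_anti {a : Fin (2 * g + 1) → 𝓞 K} (h : Dif a)
    {P Q : HeightOneSpectrum (𝓞 K) → Prop} (hPQ : ∀ v, P v → Q v) : exs h Q ≤ exs h P := by
  classical
  unfold exs
  refine sum_le_sum fun v _ => mul_le_mul_of_nonneg_right ?_ (log_nv_pos v).le
  by_cases hP : P v
  · rw [if_pos hP, if_pos (hPQ v hP)]
  · rw [if_neg hP]
    split_ifs
    · exact Nat.cast_nonneg _
    · exact le_rfl

/-- a square class which contains all the coordinates -/
def Sqs (y : Finset (Fin (2 * g + 1)) → K) : Prop := ∃ t : K, ∀ S ∈ Sp g, ∃ q, y S = t * q ^ 2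

/-- the condition at a place -/
def Good (a : Fin (2 * g + 1) → 𝓞 K) (y : Finset (Fin (2 * g + 1)) → K)
    (v : HeightOneSpectrum (𝓞 K)) : Prop :=
  Smp a v ∧ Sqs y ∨ Sng a v ∧ Ident (fun i => (a i : K)) y v

theorem sng_of_smp {a : Fin (2 * g + 1) → 𝓞 K} {v : HeightOneSpectrum (𝓞 K)} (h : Smp a v) :
    Sng a v := by
  obtain ⟨p, hp, hs⟩ := h
  exact ⟨p, hp, single_of_simple hs⟩

theorem Good.sng {a : Fin (2 * g + 1) → 𝓞 K} {y : Finset (Fin (2 * g + 1)) → K}
    {v : HeightOneSpectrum (𝓞 K)} (h : Good a y v) : Sng a v := by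
  rcases h with h | h
  · exact sng_of_smp h.1
  · exact h.1

theorem norm_al' {a : Fin (2 * g + 1) → 𝓞 K} (h : Dif a) {z : Finset (Fin (2 * g + 1)) → 𝓞 K}
    {S₀ : Sp g} (h0 : z S₀ ≠ 0) (hL : Linear (fun i => (a i : K)) fun S => (z S : K))
    {P : HeightOneSpectrum (𝓞 K) → Prop}
    (hI : ∀ v, P v → Good a (fun S => (z S : K)) v) :
    Real.log (Ideal.absNorm (Ideal.span (Set.range fun S : Sp g => W a S * z S ^ 2))) ≤
      2 * Real.log (Ideal.absNorm (Ideal.span (Set.range fun S : Sp g => z S))) + exs h P := by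
  obtain ⟨zz, hzz⟩ : ∃ zz : Sp g → 𝓞 K, zz = fun S : Sp g => z S := ⟨_, rfl⟩
  obtain ⟨ww, hww⟩ : ∃ ww : Sp g → 𝓞 K, ww = fun S : Sp g => W a S * z S ^ 2 := ⟨_, rfl⟩
  have ez (S : Sp g) : zz S = z S := by rw [hzz]
  have ew (S : Sp g) : ww S = W a S * z S ^ 2 := by rw [hww]
  have hb : zz S₀ ≠ 0 := by rwa [ez]
  have hb' : ww S₀ ≠ 0 := by
    rw [ew]
    exact mul_ne_zero (Wne h _) (pow_ne_zero 2 h0)
  rw [← hzz, ← hww]
  have key (v : HeightOneSpectrum (𝓞 K)) : ∃ S : Sp g, z S ∉ v.asIdeal ^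
      (mi v (Ideal.span (Set.range zz)) + 1) := by
    have h1 := (le_mi_span (v := v) hb (mi v (Ideal.span (Set.range zz)) + 1)).not.1 (by omega)
    push Not at h1
    obtain ⟨S, hS⟩ := h1
    exact ⟨S, by rwa [ez] at hS⟩
  refine norm_le h (span_ne hb) (span_ne hb') (fun v => ?_) fun v hPv => ?_
  · obtain ⟨S, hS⟩ := key v
    have h1 := loc_gen h hS
    by_contra hcon
    rw [not_le] at hcon
    have h2 := (le_mi_span hb' _).1 hcon S
    rw [ew] at h2
    exact h1 h2
  · obtain ⟨S, hS'⟩ := key v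
    rcases hI v hPv with ⟨⟨p, hp, hs⟩, t, hSq⟩ | ⟨⟨p, hp, hs⟩, hId⟩
    · have h3 := (le_mi_span (v := v) hb _).1 le_rfl
      obtain ⟨S', hSp', h1⟩ := loc_simple h hL hSq hp hs (fun T hT => by
        have h4 := h3 ⟨T, hT⟩
        rwa [ez] at h4) S.2 hS'
      by_contra hcon
      rw [not_le] at hcon
      have h2 := (le_mi_span hb' _).1 hcon ⟨S', hSp'⟩
      rw [ew] at h2
      exact h1 h2
    obtain ⟨S₁, hS₁, hsep, hmax⟩ := hId p (mem_prs.1 hp) (by
      show v.valuation K ((a p.1 : K) - (a p.2 : K)) < 1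
      rw [← dif_co]
      exact (v.valuation_lt_one_iff_mem (K := K) _).2 hs.1)
    have h1 : W a S₁ ∉ v.asIdeal := by
      unfold W
      intro hm
      obtain ⟨q, hq, hqv⟩ := (Ideal.IsPrime.prod_mem_iff (hp := v.isPrime)).1 hm
      have := hs.2 q (Gs_sub S₁ hq) hqv
      rw [this] at hq
      exact hsep (mem_filter.1 hq).2
    have h2 : z S₁ ∉ v.asIdeal ^ (mi v (Ideal.span (Set.range zz)) + 1) := by
      intro hm
      apply hS'
      rw [Pool.Agent.H433.GT.mem_pow] at hm ⊢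
      exact (hmax S S.2).trans hm
    have h3 : z S₁ ≠ 0 := by
      intro h0
      rw [h0] at h2
      exact h2 (Ideal.zero_mem _)
    by_contra hcon
    rw [not_le] at hcon
    have h4 := (le_mi_span hb' _).1 hcon ⟨S₁, hS₁⟩
    rw [ew] at h4
    rcases v.isPrime.mul_mem_pow _ h4 with h5 | h5
    · exact h1 h5
    · rw [le_mp (pow_ne_zero 2 h3), pow_two, mp_mul h3 h3] at h5
      rw [le_mp h3] at h2
      omega

/-- the height of a point in the identity component -/
theorem al_low' {a : Fin (2 * g + 1) → 𝓞 K} (hg : 1 ≤ g) (h : Dif a) {M : InfinitePlace K → ℝ}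
    (hM : Bd a M) {y : Finset (Fin (2 * g + 1)) → K} (hL : Linear (fun i => (a i : K)) y)
    {P : HeightOneSpectrum (𝓞 K) → Prop} (hI : ∀ v, P v → Good a y v)
    {l : List (Fin (2 * g + 1) × Fin (2 * g + 1))} {B : Finset (Fin (2 * g + 1))} (hl : l ≠ [])
    (hB : Apart l B) (hd : dl y l B ≠ 0)
    {S₁ : Finset (HeightOneSpectrum (𝓞 K))} (hS₁ : ∀ v ∈ S₁, Zero y v) :
    3 * (Real.log (Nm (Pr a)) - exs h P) -
      (3 * (prs (2 * g + 1)).card - g ^ 2 - 2 * l.length) * sz M -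
      l.length * (Module.finrank ℚ K * Real.log 4) + 2 * ∑ v ∈ S₁, Real.log (nv v) ≤
      ht (al (fun i => (a i : K)) y) := by
  obtain ⟨γ, z, hγ, hz⟩ := exists_int y
  have hzf : (fun S => (z S : K)) = fun S => γ * y S := funext hz
  obtain ⟨δ, hδ⟩ := dl_int z l B
  have hδ0 : δ ≠ 0 := by
    intro h0
    rw [h0, hzf, dl_smul] at hδ
    simp only [map_zero] at hδ
    exact mul_ne_zero hγ hd hδ.symm
  have hLz : Linear (fun i => (a i : K)) fun S => (z S : K) := by
    intro U hU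
    show (z U : K) = ∑ i ∈ U, _ * (z _ : K)
    rw [hz, hL U hU, mul_sum]
    refine sum_congr rfl fun i _ => ?_
    rw [hz]
    ring
  have hIz (v : HeightOneSpectrum (𝓞 K)) (hv : P v) : Good a (fun S => (z S : K)) v := by
    rcases hI v hv with ⟨hs, t, ht⟩ | ⟨hs, hId⟩
    · refine Or.inl ⟨hs, γ * t, fun S hS => ?_⟩
      obtain ⟨q, hq⟩ := ht S hS
      exact ⟨q, by
        show (z S : K) = _
        rw [hz, hq]
        ring⟩
    refine Or.inr ⟨hs, fun p hp hpv => ?_⟩
    obtain ⟨S, hS, hsep, hmax⟩ := hId p hp hpv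
    refine ⟨S, hS, hsep, fun S' hS' => ?_⟩
    show v.valuation K (z S' : K) ≤ v.valuation K (z S : K)
    rw [hz, hz, map_mul, map_mul]
    exact mul_le_mul_right (hmax S' hS') _
  -- a coordinate which is not zero
  obtain ⟨S₀, hS₀⟩ : ∃ S₀ : Sp g, z S₀ ≠ 0 := by
    by_contra hcon
    push Not at hcon
    apply hδ0
    have h1 := dl_zero (x := fun S => (z S : K)) (fun S hS => by
      have := hcon ⟨S, hS⟩
      simp only at this
      show (z S : K) = 0
      rw [this]
      simp) l B hB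
    rw [← hδ] at h1
    exact_mod_cast h1
  obtain ⟨ww, hww⟩ : ∃ ww : Sp g → 𝓞 K, ww = fun S : Sp g => W a S * z S ^ 2 := ⟨_, rfl⟩
  have ew (S : Sp g) : ww S = W a S * z S ^ 2 := by rw [hww]
  have hw0 : ww S₀ ≠ 0 := by
    rw [ew]
    exact mul_ne_zero (Wne h _) (pow_ne_zero 2 hS₀)
  have e0 : (fun S : Sp g => ((W a S * z S ^ 2 : 𝓞 K) : K)) = fun S => ((ww S : 𝓞 K) : K) := by
    rw [hww]
  have h1 := norm_al' h hS₀ hLz hIz
  rw [← hww] at h1
  have h2 := norm_dl h hγ hz hS₀ hLz hl hB hδ hδ0 hS₁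
  have h2' := exs_anti h fun v hv => (hI v hv).sng
  have h3 := norm_sub hg h hM (apart_sub hB)
  rw [List.toFinset_card_of_nodup (apart_nodup hB)] at h3
  have hNg : g ^ 2 ≤ (prs (2 * g + 1)).card := by
    obtain ⟨S, hS⟩ := Sp_nonempty g
    rw [← card_Gs hS]
    exact card_le_card (Gs_sub S)
  set N := (prs (2 * g + 1)).card with hN
  have hMp := M_pos hg h hM
  have hPd : Pr a * δ ^ 2 ≠ 0 := mul_ne_zero (Pr_ne h) (pow_ne_zero 2 hδ0)
  have h4 := arch_low (Z := ww) hPd (c := fun w => (M w ^ (N - g ^ 2) * 4 ^ l.length)⁻¹)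
    (fun w => by have := hMp w; positivity)
    fun w => by
      have : Nonempty (Sp g) := ⟨S₀⟩
      obtain ⟨S, -, hS⟩ := exists_max_image (univ : Finset (Sp g)) (fun S => w (z S : K))
        univ_nonempty
      refine ⟨S, ?_⟩
      have h5 : w (δ : K) ≤ 2 ^ l.length * w (z S : K) := by
        rw [hδ]
        refine dl_abs (w := w) (fun y z => ?_) (fun T hT => hS ⟨T, hT⟩ (mem_univ _)) l B hB
        rw [← InfinitePlace.norm_embedding_eq, ← InfinitePlace.norm_embedding_eq w y,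
          ← InfinitePlace.norm_embedding_eq w z, map_sub]
        exact norm_sub_le _ _
      have h6 : w (δ : K) ^ 2 ≤ (2 ^ l.length * w (z S : K)) ^ 2 :=
        pow_le_pow_left₀ (apply_nonneg _ _) h5 2
      have h7 := prod_low' hM w (Gs_sub (S : Finset (Fin (2 * g + 1))))
      rw [card_Gs S.2, ← hN] at h7
      rw [ew]
      push_cast
      rw [map_mul, map_mul, map_pow, map_pow]
      have h8 : (4 : ℝ) ^ l.length = (2 ^ l.length) ^ 2 := by
        rw [← pow_mul, Nat.mul_comm l.length 2, pow_mul]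
        norm_num
      have hMw := hMp w
      rw [h8, inv_mul_le_iff₀ (by positivity)]
      calc w (Pr a : K) * w (δ : K) ^ 2
          ≤ (M w ^ (N - g ^ 2) * w ((∏ q ∈ Gs (S : Finset (Fin (2 * g + 1))),
              (a q.1 - a q.2) : 𝓞 K) : K)) * (2 ^ l.length * w (z S : K)) ^ 2 := by
            gcongr
        _ = M w ^ (N - g ^ 2) * (2 ^ l.length) ^ 2 *
              (w ((W a S : 𝓞 K) : K) * w (z S : K) ^ 2) := by
            have : W a (S : Finset (Fin (2 * g + 1))) =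
              ∏ q ∈ Gs (S : Finset (Fin (2 * g + 1))), (a q.1 - a q.2) := rfl
            rw [this]
            ring
  have h9 : sz (fun w => (M w ^ (N - g ^ 2) * 4 ^ l.length)⁻¹) =
      -((N - g ^ 2) * sz M) - l.length * (Module.finrank ℚ K * Real.log 4) := by
    rw [← sz_const]
    unfold sz
    rw [mul_sum, mul_sum, ← sum_neg_distrib, ← sum_sub_distrib]
    refine sum_congr rfl fun w _ => ?_
    rw [Real.log_inv, Real.log_mul (pow_ne_zero _ (hMp w).ne') (by positivity), Real.log_pow,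
      Real.log_pow, Nat.cast_sub hNg]
    push_cast
    ring
  have h10 : Real.log (Nm (Pr a * δ ^ 2)) = Real.log (Nm (Pr a)) + 2 * Real.log (Nm δ) := by
    rw [log_Nm_inf hPd, log_Nm_inf (Pr_ne h), log_Nm_inf hδ0, mul_sum, ← sum_add_distrib]
    refine sum_congr rfl fun w _ => ?_
    push_cast
    rw [map_mul, map_pow, Real.log_mul (w_pos (Pr_ne h)).ne' (pow_ne_zero 2 (w_pos hδ0).ne'),
      Real.log_pow]
    push_cast
    ring
  rw [al_ht h hγ hz, e0, ht_int hw0]
  rw [h9, h10] at h4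
  have h11 : pl a l = ∏ q ∈ l.toFinset, (a q.1 - a q.2) := rfl
  rw [h11] at h2
  linarith

theorem al_hhat {a : Fin (2 * g + 1) → K} (ha : Function.Injective a)
    {X : ℕ → Finset (Fin (2 * g + 1)) → K} (hX : Orbit a X) :
    ht (al a (X 0)) - ht (fun S => (rs a S)⁻¹) - 2 * (Module.finrank ℚ K * cg g) ≤ 2 * hhat X := by
  have h1 := (hhat_spec ha hX).2
  have h2 := dbl_low (hX 0).2.2
  rw [NumberField.totalWeight_eq_finrank] at h1 h2
  rw [zero_add] at h2
  have h3 : 0 ≤ (Module.finrank ℚ K : ℝ) * cg g := mul_nonneg (Nat.cast_nonneg _) (cg_nonneg g)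
  linarith

end Pool.Agent.H433.HD
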