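import Pool.Agent.H433.HD.Arch
import Mathlib.NumberTheory.NumberField.Completion.Ramification

/-!
The archimedean places of an extension.
-/

set_option autoImplicit false
set_option linter.unusedSectionVars false

open NumberField IsDedekindDomain Finset

namespace Pool.Agent.H433.HD

variable {K L : Type} [Field K] [NumberField K] [Field L] [NumberField L] [Algebra K L]

open Classical in
variable (L) in
theorem sum_mult (v : InfinitePlace K) :
    (∑ w : InfinitePlace L with w.comap (algebraMap K L) = v, (w.mult : ℝ)) =
      Module.finrank K L * v.mult := by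
  rw [← InfinitePlace.sum_inertiaDeg_eq_finrank K L v]
  push_cast
  rw [sum_mul]
  have h1 : (univ.filter fun w : InfinitePlace L => w.comap (algebraMap K L) = v) =
      (v.placesOver L).toFinset := by
    ext w
    rw [mem_filter, Set.mem_toFinset]
    refine ⟨fun h => ?_, fun h => ⟨mem_univ _, ?_⟩⟩
    · refine ⟨?_⟩
      rw [← h.2]
      rfl
    · have : w.LiesOver v := h
      exact InfinitePlace.LiesOver.comap_eq w v
  rw [h1]
  refine sum_congr rfl fun w hw => ?_
  have : w.LiesOver v := by
    rw [Set.mem_toFinset] at hw
    exact hw
  rw [InfinitePlace.inertiaDeg_eq_finrank, ← InfinitePlace.mult_mul_finrank (v := v) w]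
  push_cast
  ring

/-- the sum over the places of an extension -/
theorem sz_comap (M : InfinitePlace K → ℝ) :
    sz (fun w : InfinitePlace L => M (w.comap (algebraMap K L))) =
      Module.finrank K L * sz M := by
  classical
  unfold sz
  rw [← sum_fiberwise (s := (univ : Finset (InfinitePlace L)))
    (g := fun w : InfinitePlace L => w.comap (algebraMap K L)), mul_sum]
  refine sum_congr rfl fun v _ => ?_
  rw [← mul_assoc, ← sum_mult L v, sum_mul]
  refine sum_congr rfl fun w hw => ?_
  beta_reduce
  rw [(mem_filter.1 hw).2]

end Pool.Agent.H433.HD
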