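import Pool.Agent.H433.HD.Inf

/-!
The lower bound over the extensions.
-/

set_option autoImplicit false
set_option linter.unusedSectionVars false

open NumberField IsDedekindDomain Finset

namespace Pool.Agent.H433.HD

open Pool.Agent.H433.AC Pool.Agent.H433.HG
open Pool.Agent.H433.GT (mi le_mi)

variable {g : ℕ} {K : Type} [Field K] [NumberField K]

theorem comap_comp {K L E : Type} [Field K] [Field L] [Field E] [Algebra K L] [Algebra L E]
    [Algebra K E] [IsScalarTower K L E] (w : InfinitePlace E) :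
    (w.comap (algebraMap L E)).comap (algebraMap K L) = w.comap (algebraMap K E) := by
  rw [IsScalarTower.algebraMap_eq K L E]
  exact InfinitePlace.comap_comp w _ _

theorem Bd_up {a : Fin (2 * g + 1) → 𝓞 K} {M : InfinitePlace K → ℝ} (hM : Bd a M) {L : Type}
    [Field L] [NumberField L] [Algebra K L] :
    Bd (up L a) fun w => M (w.comap (algebraMap K L)) := fun w q hq => by
  rw [place_up]
  exact hM _ q hq

theorem Pr_up (a : Fin (2 * g + 1) → 𝓞 K) {L : Type} [Field L] [NumberField L] [Algebra K L] :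
    Pr (up L a) = algebraMap (𝓞 K) (𝓞 L) (Pr a) := by
  unfold Pr
  rw [map_prod]
  exact prod_congr rfl fun q _ => up_sub a q.1 q.2

theorem ldd_eq {L : Type} [Field L] [NumberField L] [Algebra K L] {b : Fin (2 * g + 1) → 𝓞 L}
    (h : Dif b) {D : 𝓞 L} {k : ℕ} (hD : D = (-1) ^ k * Pr b ^ 2) :
    ldd K L D = ∑ w ∈ Vf h, (mi w (differentIdeal (𝓞 K) (𝓞 L)) : ℝ) * Real.log (nv w) := by
  classical
  have h1 (w : HeightOneSpectrum (𝓞 L)) : w ∈ Vf h ↔ D ∈ w.asIdeal := by
    constructor
    · intro hw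
      unfold Vf at hw
      rw [Set.Finite.mem_toFinset] at hw
      rw [hD, pow_two]
      exact Ideal.mul_mem_left _ _ (Ideal.mul_mem_left _ _ hw)
    · intro hw
      rw [hD] at hw
      rcases w.isPrime.mem_or_mem hw with h2 | h2
      · exact absurd (Ideal.eq_top_of_isUnit_mem _ h2 ((isUnit_one.neg).pow k)) w.isPrime.ne_top
      · obtain ⟨q, hq, hqw⟩ := (Ideal.IsPrime.prod_mem_iff (hp := w.isPrime)).1
          (w.isPrime.mem_of_pow_mem _ h2)
        exact mem_Vf h hq hqw
  unfold ldd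
  rw [finsum_eq_sum_of_support_subset (s := Vf h) _ fun w hw => ?_]
  · exact sum_congr rfl fun w hw => if_pos ((h1 w).1 hw)
  · rw [Function.mem_support] at hw
    rw [mem_coe, h1]
    by_contra hcon
    rw [if_neg hcon] at hw
    exact hw rfl

theorem exs_smp' {a : Fin (2 * g + 1) → 𝓞 K} (h : Dif a) {L : Type} [Field L] [NumberField L]
    [Algebra K L] {D : 𝓞 K} {k : ℕ} (hD : D = (-1) ^ k * Pr a ^ 2) :
    exs (up_dif (L := L) h) (Smp (up L a)) ≤
      Module.finrank K L * ex h + 2 * ldd K L (algebraMap (𝓞 K) (𝓞 L) D) := by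
  classical
  have hDL : algebraMap (𝓞 K) (𝓞 L) D = (-1) ^ k * Pr (up L a) ^ 2 := by
    rw [hD, Pr_up]
    simp
  set hL := up_dif (L := L) h with hhL
  rw [ldd_eq hL hDL]
  have h1 : exs hL (Smp (up L a)) ≤
      ∑ w ∈ Vf hL, ((mu (up L a) w : ℝ) - sw L h w) * Real.log (nv w) +
        2 * ∑ w ∈ Vf hL, (mi w (differentIdeal (𝓞 K) (𝓞 L)) : ℝ) * Real.log (nv w) := by
    unfold exs
    rw [mul_sum, ← sum_add_distrib]
    refine sum_le_sum fun w _ => ?_
    rw [← mul_assoc, ← add_mul]
    refine mul_le_mul_of_nonneg_right ?_ (log_nv_pos w).le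
    have h1 : (sw L h w : ℝ) ≤ mu (up L a) w := by exact_mod_cast sw_le h w
    have h4 : (0 : ℝ) ≤ mi w (differentIdeal (𝓞 K) (𝓞 L)) := Nat.cast_nonneg _
    split_ifs with hs
    · linarith
    · rcases sw_cases h w with h2 | ⟨v, hv, h2, h3⟩
      · rw [h2, Nat.cast_zero, sub_zero]
        linarith
      · have h5 : 2 ≤ mi w (J L v) := by
          by_contra hcon
          apply hs
          obtain ⟨p, hp, hs'⟩ := hv
          exact ⟨p, hp, simple_up hp h hs' (by omega)⟩
        have h6 := mi_different (L := L) v w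
        have h7 := mu_up h hv h2
        have h8 : mu (up L a) w ≤ 2 * mi w (differentIdeal (𝓞 K) (𝓞 L)) := by omega
        have h9 : (mu (up L a) w : ℝ) ≤ 2 * mi w (differentIdeal (𝓞 K) (𝓞 L)) := by
          exact_mod_cast h8
        linarith
  rw [sum_sw] at h1
  linarith

/-- the lower bound over the extension -/
theorem low {a : Fin (2 * g + 1) → 𝓞 K} (hg : 1 ≤ g) (h : Dif a) {L : Type} [Field L]
    [NumberField L] [Algebra K L] {D : 𝓞 K} {e : ℕ} (hD : D = (-1) ^ e * Pr a ^ 2)
    {M : InfinitePlace K → ℝ} (hM : Bd a M)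
    {X : ℕ → Finset (Fin (2 * g + 1)) → L} (hX : Orbit (fun i => algebraMap K L (a i)) X)
    {l : List (Fin (2 * g + 1) × Fin (2 * g + 1))} {B : Finset (Fin (2 * g + 1))} (hl : l ≠ [])
    (hB : Apart l B) (hd : dl (X 1) l B ≠ 0)
    {S₁ : Finset (HeightOneSpectrum (𝓞 L))} (hS₁ : ∀ v ∈ S₁, Zero (X 1) v) :
    Module.finrank K L * (3 * (Real.log (Nm (Pr a)) - ex h) -
      (3 * (prs (2 * g + 1)).card - 2 * l.length) * sz M -
      l.length * (Module.finrank ℚ K * Real.log 4) - 2 * (Module.finrank ℚ K * cg g)) +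
      2 * ∑ v ∈ S₁, Real.log (nv v) - 2 * ldd K L (algebraMap (𝓞 K) (𝓞 L) D) ≤ 8 * hhat X := by
  have hco : (fun i => algebraMap K L (a i)) = fun i => ((up L a i : 𝓞 L) : L) := by
    funext i
    exact (alg_co (a i)).symm
  rw [hco] at hX
  have hL := up_dif (L := L) h
  have hML := Bd_up (L := L) hM
  have e1 := al_low (K := L) hg hL hML (y := X 1) (t := (hX 0).2.2.choose) (fun S hS => by
      obtain ⟨q, -, -, hq⟩ := (hX 0).2.2.choose_spec
      exact ⟨q S, hq S hS⟩) (hX 1).2.1 hl hB hd hS₁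
  have e2 := hm_up' (K := L) hL hML
  have e3 := (hhat_spec (inj_of hL.inj) hX).2
  have e4 := exs_smp' (L := L) h hD
  have e4' := exs_sng (L := L) h
  have e5 : hm (up L a) = ht fun S => (rs (fun i => ((up L a i : 𝓞 L) : L)) S)⁻¹ := rfl
  rw [e5] at e2
  have e6 : (Module.finrank ℚ L : ℝ) = Module.finrank K L * Module.finrank ℚ K := by
    rw [mul_comm]
    exact_mod_cast (Module.finrank_mul_finrank ℚ K L).symm
  rw [NumberField.totalWeight_eq_finrank] at e3
  rw [Pr_up, Nm_map, sz_comap] at e1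
  rw [sz_comap] at e2
  push_cast at e1
  rw [Real.log_pow] at e1
  rw [e6] at e1 e3
  have e7 : Module.finrank K L * (3 * (Real.log (Nm (Pr a)) - ex h) -
      (3 * (prs (2 * g + 1)).card - 2 * l.length) * sz M -
      l.length * (Module.finrank ℚ K * Real.log 4) - 2 * (Module.finrank ℚ K * cg g)) =
      3 * (Module.finrank K L * Real.log (Nm (Pr a))) - 3 * (Module.finrank K L * ex h) -
      (3 * (prs (2 * g + 1)).card - g ^ 2 - 2 * l.length) * (Module.finrank K L * sz M) -
      g ^ 2 * (Module.finrank K L * sz M) -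
      l.length * (Module.finrank K L * Module.finrank ℚ K * Real.log 4) -
      2 * (Module.finrank K L * Module.finrank ℚ K * cg g) := by ring
  rw [e7]
  linarith

end Pool.Agent.H433.HD
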