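import Pool.Agent.H433.HD.Split
import Mathlib.Analysis.Complex.ExponentialBounds

/-!
The explicit lower bound for all hyperelliptic curves with a rational Weierstrass point.
-/

set_option autoImplicit false
set_option linter.unusedSectionVars false

open NumberField IsDedekindDomain Finset Polynomial Filter Topology

namespace Pool.Agent.H433.HD

open Pool.Agent.H433.AC Pool.Agent.H433.HG

theorem card_prs (n : ℕ) : n * (n - 1) = 2 * (prs n).card := by
  have h1 := prod_prs (R := ℤ) (n := n) fun _ _ => 2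
  simp only [prod_const, card_erase_of_mem (mem_univ _), card_univ, Fintype.card_fin] at h1
  rw [← pow_mul, ← pow_add, ← two_mul] at h1
  have h2 := Nat.pow_right_injective (le_refl 2) (a₁ := (n - 1) * n) (a₂ := 2 * (prs n).card)
    (by exact_mod_cast h1)
  rw [mul_comm]
  exact h2

theorem card_prs' (g : ℕ) : ((prs (2 * g + 1)).card : ℝ) = g * (2 * g + 1) := by
  have h1 := card_prs (2 * g + 1)
  have h2 : (prs (2 * g + 1)).card = g * (2 * g + 1) := by
    rw [Nat.add_sub_cancel] at h1
    have : 2 * (prs (2 * g + 1)).card = 2 * (g * (2 * g + 1)) := by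
      rw [← h1]
      ring
    omega
  rw [h2]
  push_cast
  ring

theorem log_four : Real.log 4 ≤ 1.4 := by
  have h1 : Real.log 4 = 2 * Real.log 2 := by
    rw [show (4 : ℝ) = 2 ^ 2 by norm_num, Real.log_pow]
    norm_num
  have := Real.log_two_lt_d9
  rw [h1]
  linarith

/-- the constants -/
theorem cst_le {g : ℕ} (hg : 1 ≤ g) : (g + 1) * Real.log 4 + 2 * cg g ≤ 8 * g := by
  have hgR : (1 : ℝ) ≤ g := by exact_mod_cast hg
  have h1 : cg g ≤ g * Real.log 4 := by
    unfold cg
    have h2 : Nat.card (Sp g) ≤ 4 ^ g := by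
      rw [Nat.card_eq_fintype_card, Fintype.card_coe]
      unfold Sp
      rw [card_powersetCard, card_univ, Fintype.card_fin, Nat.choose_symm_half]
      exact Nat.choose_middle_le_pow g
    have h3 : 0 < Nat.card (Sp g) := by
      rw [Nat.card_eq_fintype_card, Fintype.card_coe, card_pos]
      exact Sp_nonempty g
    have h4 : Real.log (Nat.card (Sp g)) ≤ Real.log (4 ^ g) := by
      refine Real.log_le_log (by exact_mod_cast h3) ?_
      exact_mod_cast h2
    rw [Real.log_pow] at h4
    exact h4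
  have h2 := log_four
  have h3 : 0 ≤ Real.log 4 := Real.log_nonneg (by norm_num)
  nlinarith [mul_le_mul_of_nonneg_left h2 (by linarith : (0 : ℝ) ≤ g)]

theorem sz_nonneg {g : ℕ} {K : Type} [Field K] [NumberField K] {a : Fin (2 * g + 1) → 𝓞 K}
    (hg : 1 ≤ g) (h : Dif a) {M : InfinitePlace K → ℝ} (hM : Bd a M) : 0 ≤ sz M := by
  have h1 := norm_sub hg h hM (s := ∅) (empty_subset _)
  have h2 : Real.log (Nm (∏ q ∈ (∅ : Finset (Fin (2 * g + 1) × Fin (2 * g + 1))),
      (a q.1 - a q.2))) = 0 := by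
    rw [prod_empty]
    unfold Nm
    rw [Ideal.span_singleton_one, Ideal.absNorm_top]
    simp
  have h3 : (0 : ℝ) ≤ Real.log (Nm (Pr a)) := Real.log_natCast_nonneg _
  rw [h2, card_empty, card_prs', Nat.cast_zero, sub_zero] at h1
  have hgR : (1 : ℝ) ≤ g := by exact_mod_cast hg
  by_contra hcon
  rw [not_le] at hcon
  have : (g : ℝ) * (2 * g + 1) * sz M < 0 := mul_neg_of_pos_of_neg (by positivity) hcon
  linarith

theorem main (g : ℕ) (hg : 1 ≤ g) (K L : Type) [Field K] [NumberField K] [Field L]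
    [NumberField L] [Algebra K L] (f : (𝓞 K)[X]) (hf : f.Monic) (hD : f.discr ≠ 0)
    [hs : IsSplittingField K L (f.map (algebraMap (𝓞 K) K))] (a : Fin (2 * g + 1) → L)
    (ha : f.map (algebraMap (𝓞 K) L) = ∏ i, (X - C (a i)))
    (M : InfinitePlace K → ℝ)
    (hM : ∀ (w : InfinitePlace L) (i j : Fin (2 * g + 1)),
      w (a i - a j) ≤ M (w.comap (algebraMap K L))) :
    Function.Injective a ∧
    ht (fun S => (rs a S)⁻¹) ≤ Module.finrank K L * (g ^ 2 * sz M) ∧
    ∀ (E : Type) [Field E] [NumberField E] [Algebra L E],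
      ∀ X : ℕ → Finset (Fin (2 * g + 1)) → E, Orbit (fun i => algebraMap L E (a i)) X →
        Tendsto (fun n : ℕ => ht (X n) / 4 ^ n) atTop (𝓝 (hhat X)) ∧
        (Origin (X 1) ∨ ∀ S : Finset (HeightOneSpectrum (𝓞 E)), (∀ v ∈ S, Zero (X 1) v) →
          Module.finrank L E * (Module.finrank K L * (3 / 16 *
            (once f.discr - (2 * g * (2 * g + 1) - 4 / 3) * sz M) -
            g * Module.finrank ℚ K)) +
            1 / 4 * ∑ v ∈ S, Real.log (nv v) -
            1 / 4 * ldd L E (algebraMap (𝓞 L) (𝓞 E) (algebraMap (𝓞 K) (𝓞 L) f.discr)) ≤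
            hhat X ∧
          ∀ l B, Apart l B → dl (X 1) l B ≠ 0 →
            Module.finrank L E * (Module.finrank K L * (3 / 16 *
              (once f.discr - (2 * g * (2 * g + 1) - 4 / 3 * l.length) * sz M) -
              g * Module.finrank ℚ K)) +
              1 / 4 * ∑ v ∈ S, Real.log (nv v) -
              1 / 4 * ldd L E (algebraMap (𝓞 L) (𝓞 E) (algebraMap (𝓞 K) (𝓞 L) f.discr)) ≤
              hhat X) := by
  -- the roots are integral
  have hint (i : Fin (2 * g + 1)) : IsIntegral ℤ (a i) := by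
    have h1 : IsIntegral (𝓞 K) (a i) := by
      refine ⟨f, hf, ?_⟩
      rw [← eval_map, ha, eval_prod]
      exact prod_eq_zero (mem_univ i) (by simp)
    exact isIntegral_trans (R := ℤ) (A := 𝓞 K) _ h1
  set b : Fin (2 * g + 1) → 𝓞 L := fun i => ⟨a i, hint i⟩ with hb
  have hba (i : Fin (2 * g + 1)) : ((b i : 𝓞 L) : L) = a i := rfl
  have hbf : (fun i => ((b i : 𝓞 L) : L)) = a := rfl
  have hab : f.map (algebraMap (𝓞 K) (𝓞 L)) = ∏ i, (X - C (b i)) := by
    apply Polynomial.map_injective (algebraMap (𝓞 L) L) (RingOfIntegers.coe_injective)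
    rw [Polynomial.map_map, ← IsScalarTower.algebraMap_eq (𝓞 K) (𝓞 L) L, ha, Polynomial.map_prod]
    refine prod_congr rfl fun i _ => ?_
    simp [hba]
  obtain ⟨k, hk⟩ := discr_eq hf hab
  have hPr : Pr b ≠ 0 := by
    intro h0
    rw [h0, zero_pow two_ne_zero, mul_zero] at hk
    exact hD ((map_eq_zero_iff _ alg_inj).1 hk)
  have hDif : Dif b := fun q hq => by
    have := prod_ne_zero_iff.1 hPr q hq
    exact this
  have hinj : Function.Injective a := by
    rw [← hbf]
    exact inj_of hDif.inj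
  have : Normal K L := Normal.of_isSplittingField (f.map (algebraMap (𝓞 K) K))
  have : IsGalois K L := {}
  have hperm := galois_perm (K := K) hab hDif.inj
  have h2 := once_le hDif hperm hk
  have hBd : Bd b fun w => M (w.comap (algebraMap K L)) := fun w q _ => by
    have h3 := hM w q.1 q.2
    have e1 : ((b q.1 - b q.2 : 𝓞 L) : L) = a q.1 - a q.2 := by
      push_cast
      rfl
    rw [e1]
    exact h3
  have hn1 : (0 : ℝ) < Module.finrank K L := by
    exact_mod_cast Module.finrank_pos
  have hsz : 0 ≤ sz M := by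
    have h3 := sz_nonneg hg hDif hBd
    rw [sz_comap] at h3
    exact nonneg_of_mul_nonneg_right h3 hn1
  refine ⟨hinj, ?_, fun E _ _ _ X hX => ?_⟩
  · have h3 := hm_up' hDif hBd
    rw [sz_comap] at h3
    have e1 : hm b = ht fun S => (rs a S)⁻¹ := rfl
    rw [e1] at h3
    linarith
  have hco : (fun i => algebraMap L E (a i)) = fun i => ((up E b i : 𝓞 E) : E) := by
    funext i
    exact (alg_co (b i)).symm
  refine ⟨?_, ?_⟩
  · rw [hco] at hX
    exact (hhat_spec (inj_of (up_dif (L := E) hDif).inj) hX).1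
  by_cases hO : Origin (X 1)
  · exact Or.inl hO
  refine Or.inr fun S hS => ?_
  have key (l : List (Fin (2 * g + 1) × Fin (2 * g + 1))) (B : Finset (Fin (2 * g + 1)))
      (hl : l ≠ []) (hB : Apart l B) (hdl' : dl (X 1) l B ≠ 0) :
      Module.finrank L E * (Module.finrank K L * (3 / 16 *
        (once f.discr - (2 * g * (2 * g + 1) - 4 / 3 * l.length) * sz M) -
        g * Module.finrank ℚ K)) +
        1 / 4 * ∑ v ∈ S, Real.log (nv v) -
        1 / 4 * ldd L E (algebraMap (𝓞 L) (𝓞 E) (algebraMap (𝓞 K) (𝓞 L) f.discr)) ≤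
        hhat X := by
    have h1 := low hg hDif hk hBd (X := X) hX hl hB hdl' hS
    have hk1 : (l.length : ℝ) ≤ g + 1 := by
      have := hB.2.2
      have h2 : l.length ≤ g + 1 := by omega
      exact_mod_cast h2
    rw [sz_comap, card_prs'] at h1
    have e6 : (Module.finrank ℚ L : ℝ) = Module.finrank K L * Module.finrank ℚ K := by
      rw [mul_comm]
      exact_mod_cast (Module.finrank_mul_finrank ℚ K L).symm
    rw [e6] at h1
    set m : ℝ := (Module.finrank L E : ℝ) with hm
    set n : ℝ := (Module.finrank K L : ℝ) with hn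
    set d : ℝ := (Module.finrank ℚ K : ℝ) with hd
    set kk : ℝ := (l.length : ℝ) with hkk
    have hm0 : 0 ≤ m := Nat.cast_nonneg _
    have hn0 : 0 ≤ n := Nat.cast_nonneg _
    have hd0 : 0 ≤ d := Nat.cast_nonneg _
    have hl4 : 0 ≤ Real.log 4 := Real.log_nonneg (by norm_num)
    have e8 : kk * (n * d * Real.log 4) ≤ (g + 1) * (n * d * Real.log 4) :=
      mul_le_mul_of_nonneg_right hk1 (by positivity)
    have e8' : (n * d) * ((g + 1) * Real.log 4 + 2 * cg g) ≤ (n * d) * (8 * g) :=
      mul_le_mul_of_nonneg_left (cst_le hg) (by positivity)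
    have e9 : 8 * (n * (3 / 16 * (once f.discr - (2 * g * (2 * g + 1) - 4 / 3 * kk) * sz M) -
        g * d)) ≤
        3 * (Real.log (Nm (Pr b)) - ex hDif) - (3 * (g * (2 * g + 1)) - 2 * kk) * (n * sz M) -
        kk * (n * d * Real.log 4) - 2 * (n * d * cg g) := by
      have e10 : 8 * (n * (3 / 16 * (once f.discr - (2 * g * (2 * g + 1) - 4 / 3 * kk) * sz M) -
        g * d)) = 3 / 2 * (n * once f.discr) -
        (3 * (g * (2 * g + 1)) - 2 * kk) * (n * sz M) - (n * d) * (8 * g) := by
        ring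
      rw [e10]
      linarith
    have e11 := mul_le_mul_of_nonneg_left e9 hm0
    linarith
  obtain ⟨l₁, B₁, hB₁, hd₁, hl₁⟩ := exists_dl hO
  have hne₁ : l₁ ≠ [] := by
    rintro rfl
    simp at hl₁
  have hfirst := key l₁ B₁ hne₁ hB₁ hd₁
  rw [hl₁, Nat.cast_one, mul_one] at hfirst
  refine ⟨hfirst, fun l B hB hdl' => ?_⟩
  rcases eq_or_ne l [] with rfl | hl
  · refine le_trans ?_ hfirst
    rw [List.length_nil, Nat.cast_zero, mul_zero, sub_zero]
    have e1 : (once f.discr - (2 * g * (2 * g + 1)) * sz M : ℝ) ≤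
        once f.discr - (2 * g * (2 * g + 1) - 4 / 3) * sz M := by
      linarith
    gcongr
  · exact key l B hl hB hdl'

end Pool.Agent.H433.HD
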